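import Pool.Agent.H9.AB.RelPow
import Pool.Agent.H9.FC.Red
import Pool.Agent.H66.AB.StickP
import Pool.Agent.H71.AB.Phi
import Pool.Agent.H87.AB.DLlin
import Pool.Agent.H99.AB.Fourier

/-!
# Project AB, module RelA: the twisted Kummer relations

`f ≥ 1`, `p` an odd prime, `p ∤ f`, `L = ℚ(ζ_f) ⊆ K`, `(a, b, c)` a first case solution over `K` (`a` and `c`
prime to `p`), `w : 𝓞 L → Ω` (`Ω` algebraically closed of characteristic `p`), `w_g = w ∘ σ_g` for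
`g ∈ (ℤ/f)ˣ`, `ψ g i : 𝓞 K → Ω`, `i < [K:L]`, the reduction of the `L`-embeddings of `K` over `w_g`
(`exists_relFam`).  For `1 ≤ c₀ < f p`, `2 ≤ j ≤ p - 2` and every character `χ : (ℤ/f)ˣ → Ωˣ`:

  `∑_t ⌊c₀ t/(f p)⌋ t^{-j} χ(t) = 0`  or  `∑_g χ(g) ∑_i L_{j-1}(-ψ g i b / ψ g i a) = 0`.

PROOF. `P = N_{K/L}(a + bX)`, `A = P(ζ_p) P(1)^(p-1) ∈ ℤ[ζ_{fp}]` is prime to `p` and `(A) = I^p`
(`exists_pow_idealR`), `J^p ∏_{σ ∈ T_b} σ⁻¹ A = ζ_p^k Y^p` (`stick_pow`), logarithmic derivatives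
(`rel_eval`), for all extensions of the place `w_g` to `ℤ[ζ_{fp}]`, sum over `b < c₀` and Fourier
transform (`fourier_rel`).
-/

namespace H9AB

open Polynomial NumberField H9FC H45KC
open scoped Pointwise

universe u v w

/-- the automorphism `ζ_f ↦ ζ_f ^ g` of `L = ℚ(ζ_f)`, on `𝓞 L`, as a ring homomorphism -/
noncomputable def actL (f : ℕ) [NeZero f] (L : Type*) [Field L] [NumberField L]
    [IsCyclotomicExtension {f} ℚ L] (g : (ZMod f)ˣ) : 𝓞 L →+* 𝓞 L :=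
  MulSemiringAction.toRingHom _ _ ((IsCyclotomicExtension.Rat.galEquivZMod f L).symm g)

theorem actL_mul (f : ℕ) [NeZero f] (L : Type*) [Field L] [NumberField L]
    [IsCyclotomicExtension {f} ℚ L] (g h : (ZMod f)ˣ) :
    actL f L (g * h) = (actL f L g).comp (actL f L h) := by
  ext x
  unfold actL
  rw [map_mul]
  rfl

theorem actL_zeta (f : ℕ) [NeZero f] (L : Type*) [Field L] [NumberField L]
    [IsCyclotomicExtension {f} ℚ L] (g : (ZMod f)ˣ) (x : 𝓞 L) (hx : x ^ f = 1) :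
    actL f L g x = x ^ (g.val.val) := by
  have h1 := IsCyclotomicExtension.Rat.galEquivZMod_smul_of_pow_eq f L
    ((IsCyclotomicExtension.Rat.galEquivZMod f L).symm g) hx
  rw [MulEquiv.apply_symm_apply] at h1
  exact h1

/-- `ℚ(ζ_f)` embeds into `ℚ(ζ_{fp})` -/
theorem exists_emb (f p : ℕ) [NeZero f] [NeZero (f * p)] (L : Type*) [Field L] [NumberField L]
    [IsCyclotomicExtension {f} ℚ L] (M : Type*) [Field M] [NumberField M]
    [IsCyclotomicExtension {f * p} ℚ M] : Nonempty (L →ₐ[ℚ] M) := by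
  have hM := IsCyclotomicExtension.zeta_spec (f * p) ℚ M
  have hL := IsCyclotomicExtension.zeta_spec f ℚ L
  have h1 : IsPrimitiveRoot (IsCyclotomicExtension.zeta (f * p) ℚ M ^ p) f :=
    hM.pow (NeZero.pos _) (mul_comm f p)
  refine ⟨(hL.powerBasis ℚ).lift (IsCyclotomicExtension.zeta (f * p) ℚ M ^ p) ?_⟩
  rw [IsPrimitiveRoot.powerBasis_gen, ← Polynomial.cyclotomic_eq_minpoly_rat hL (NeZero.pos f)]
  have h2 := h1.isRoot_cyclotomic (NeZero.pos f)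
  rw [aeval_def, eval₂_eq_eval_map, map_cyclotomic]
  exact h2

section

variable (f p : ℕ) [NeZero f] [NeZero (f * p)] (L : Type*) [Field L] [NumberField L]
    [IsCyclotomicExtension {f} ℚ L] (M : Type*) [Field M] [NumberField M]
    [IsCyclotomicExtension {f * p} ℚ M] [Algebra L M]

omit [NumberField M] [IsCyclotomicExtension {f * p} ℚ M] in
theorem mem_adjoin {ζ : 𝓞 M} (hζ : IsPrimitiveRoot ζ (f * p)) (r : 𝓞 L) :
    algebraMap (𝓞 L) (𝓞 M) r ∈ Algebra.adjoin ℤ {ζ ^ p} := by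
  have hL := IsCyclotomicExtension.zeta_spec f ℚ L
  obtain ⟨F, hF⟩ := (hL.integralPowerBasis).exists_eq_aeval' r
  rw [IsPrimitiveRoot.integralPowerBasis_gen] at hF
  have hz : IsPrimitiveRoot (ζ ^ p) f := hζ.pow (NeZero.pos _) (mul_comm f p)
  have h1 : (algebraMap (𝓞 L) (𝓞 M) hL.toInteger) ^ f = 1 := by
    rw [← map_pow, hL.toInteger_isPrimitiveRoot.pow_eq_one, map_one]
  obtain ⟨i, -, hi⟩ := hz.eq_pow_of_pow_eq_one h1
  rw [hF, ← Polynomial.aeval_algebraMap_apply, ← hi]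
  have h2 : Algebra.adjoin ℤ {(ζ ^ p) ^ i} ≤ Algebra.adjoin ℤ {ζ ^ p} := by
    rw [Algebra.adjoin_le_iff, Set.singleton_subset_iff]
    exact Subalgebra.pow_mem _ (Algebra.subset_adjoin (Set.mem_singleton _)) i
  exact h2 (Polynomial.aeval_mem_adjoin_singleton ℤ _)

theorem act_algebraMap (σ : M ≃ₐ[ℚ] M) (x : 𝓞 L) :
    H71AB.act σ (algebraMap (𝓞 L) (𝓞 M) x) = algebraMap (𝓞 L) (𝓞 M)
      (actL f L (ZMod.unitsMap (dvd_mul_right f p)
        (IsCyclotomicExtension.Rat.galEquivZMod (f * p) M σ)) x) := by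
  have hG : IsGalois ℚ L := IsCyclotomicExtension.isGalois {f} ℚ L
  have h1 := IsCyclotomicExtension.Rat.galEquivZMod_restrictNormal_apply (f * p) M L
    (dvd_mul_right f p) σ
  apply RingOfIntegers.coe_injective
  rw [← h1]
  show σ (algebraMap L M (x : L)) = algebraMap L M
    ((IsCyclotomicExtension.Rat.galEquivZMod f L).symm
      (IsCyclotomicExtension.Rat.galEquivZMod f L (σ.restrictNormal L)) (x : L))
  rw [MulEquiv.symm_apply_apply]
  exact (AlgEquiv.restrictNormal_commutes σ L (x : L)).symm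

/-- the relations of the sets `T_b`, `1 ≤ b ≤ f p - 2`, for one place `w` -/
theorem rel_b (K : Type*) [Field K] [NumberField K] [Algebra L K] [hp : Fact p.Prime]
    (hp2 : p ≠ 2) (hpf : ¬ p ∣ f) (hd : Module.finrank L K < p) (a b c : 𝓞 K)
    (h : FSol K p a b c)
    (hc : ∀ P : Ideal (𝓞 K), P.IsPrime → (p : 𝓞 K) ∈ P → c ∉ P)
    {Ω : Type*} [Field Ω] [CharP Ω p] (e : 𝓞 M →+* Ω) (β : ℕ) (hβ : 1 ≤ β) (hβ' : β + 2 ≤ f * p)
    (j : ℕ) (hj : 2 ≤ j) (hj' : j + 2 ≤ p) (g : (ZMod f)ˣ) :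
    ∑ t : (ZMod (f * p))ˣ, (if f * p < t.val.val + (β * t.val.val) % (f * p) then
        ((t.val.val : Ω)⁻¹) ^ j * DL j ((nfR L K a b).map ((e.comp (algebraMap (𝓞 L) (𝓞 M))).comp
          (actL f L (g * (ZMod.unitsMap (dvd_mul_right f p) t)⁻¹)))) else 0) = 0 := by
  classical
  have hpp : p.Prime := hp.out
  have hm1 : 1 < f * p := by omega
  have hm1' : Fact (1 < f * p) := ⟨hm1⟩
  set ζ : 𝓞 M := (IsCyclotomicExtension.zeta_spec (f * p) ℚ M).toInteger with hζdef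
  have hζ : IsPrimitiveRoot ζ (f * p) :=
    (IsCyclotomicExtension.zeta_spec (f * p) ℚ M).toInteger_isPrimitiveRoot
  have hζp : IsPrimitiveRoot (ζ ^ f) p := hζ.pow (NeZero.pos _) rfl
  set ι : 𝓞 L →+* 𝓞 M := algebraMap (𝓞 L) (𝓞 M) with hι
  set F : (𝓞 L)[X] := nfR L K a b with hF
  obtain ⟨hA, I, hI⟩ := exists_pow_idealR L K p hp2 hd a b c h hc M hζp
  set P : (𝓞 L)[X] := F * C ((F.eval 1) ^ (p - 1)) with hP
  have hF1 : F.eval₂ ι 1 = ι (F.eval 1) := by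
    have h1 := Polynomial.hom_eval₂ F (RingHom.id (𝓞 L)) ι 1
    rw [map_one, RingHom.comp_id] at h1
    exact h1.symm
  have hPe : P.eval₂ ι (ζ ^ f) = F.eval₂ ι (ζ ^ f) * (F.eval₂ ι 1) ^ (p - 1) := by
    rw [hP, Polynomial.eval₂_mul, Polynomial.eval₂_C, map_pow, hF1]
  rw [← hPe] at hA hI
  have hpm2 : ¬ p ^ 2 ∣ f * p := by
    rw [pow_two]
    intro h1
    exact hpf (Nat.dvd_of_mul_dvd_mul_right hpp.pos h1)
  obtain ⟨J, Y, k, hJ, hY, hrel⟩ := H66AB.stick_pow (f * p) p hpp hp2 (dvd_mul_left p f) hpm2 M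
    hζp (P.eval₂ ι (ζ ^ f)) hA I hI β hβ hβ'
  obtain ⟨u, hu⟩ := ZMod.unitsMap_surjective (dvd_mul_right f p) g
  set τ : M ≃ₐ[ℚ] M := (IsCyclotomicExtension.Rat.galEquivZMod (f * p) M).symm u with hτ
  have hτu : IsCyclotomicExtension.Rat.galEquivZMod (f * p) M τ = u := by
    rw [hτ, MulEquiv.apply_symm_apply]
  have hmain := H71AB.rel_eval hpf rfl hζ (e.comp (H71AB.act τ)) ι
    (mem_adjoin f p L M hζ) P (TM (f * p) M β) J Y hA hJ hY (f * k)
    (by rw [hrel, pow_mul]) j hj hj'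
  -- the homomorphisms
  have hhom : ∀ σ : M ≃ₐ[ℚ] M, ((e.comp (H71AB.act τ)).comp (H71AB.act σ⁻¹)).comp ι =
      (e.comp ι).comp (actL f L (g * (ZMod.unitsMap (dvd_mul_right f p)
        (IsCyclotomicExtension.Rat.galEquivZMod (f * p) M σ))⁻¹)) := by
    intro σ
    ext x
    show e (H71AB.act τ (H71AB.act σ⁻¹ (algebraMap (𝓞 L) (𝓞 M) x))) = _
    rw [act_algebraMap f p L M, act_algebraMap f p L M, hτu, hu, map_inv, map_inv, actL_mul]
    rfl
  -- the constant factor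
  have hDL : ∀ σ : M ≃ₐ[ℚ] M,
      DL j (P.map (((e.comp (H71AB.act τ)).comp (H71AB.act σ⁻¹)).comp ι)) =
      DL j (F.map (((e.comp (H71AB.act τ)).comp (H71AB.act σ⁻¹)).comp ι)) := by
    intro σ
    set e' : 𝓞 M →+* Ω := (e.comp (H71AB.act τ)).comp (H71AB.act σ⁻¹) with he'
    have h1 : e' (P.eval₂ ι (ζ ^ f)) ≠ 0 := H71AB.ev_ne_zero e' _ hA
    rw [hPe, map_mul, map_pow] at h1
    have h2 : e' (F.eval₂ ι 1) ≠ 0 := by
      intro h3
      rw [h3, zero_pow (by have := hpp.two_le; omega), mul_zero] at h1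
      exact h1 rfl
    have h3 : (F.map (e'.comp ι)).eval 1 ≠ 0 := by
      rw [eval_map, ← map_one e', ← Polynomial.hom_eval₂]
      exact h2
    rw [hP, Polynomial.map_mul, Polynomial.map_C, DL_mul j (by omega) _ _ h3, DL_C j (by omega),
      add_zero]
    rw [eval_C, map_pow]
    refine pow_ne_zero _ ?_
    rw [RingHom.comp_apply, ← hF1]
    exact h2
  -- the coefficients
  have hcoef : ∀ t : (ZMod (f * p))ˣ, ((t⁻¹.val.val : ℕ) : Ω) = (t.val.val : Ω)⁻¹ := by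
    intro t
    have h1 := H99AB.cast_val_mul (k := Ω) (p := p) (dvd_mul_left p f) t⁻¹ t
    rw [inv_mul_cancel, Units.val_one, ZMod.val_one, Nat.cast_one] at h1
    exact eq_inv_of_mul_eq_one_left h1.symm
  rw [← Finset.sum_filter]
  refine Eq.trans ?_ hmain
  symm
  refine Finset.sum_bij (fun σ _ => IsCyclotomicExtension.Rat.galEquivZMod (f * p) M σ) ?_ ?_ ?_ ?_
  · intro σ hσ
    rw [Finset.mem_filter]
    exact ⟨Finset.mem_univ _, (mem_TM (f * p) M β σ).1 hσ⟩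
  · intro σ _ σ' _ hh
    exact (IsCyclotomicExtension.Rat.galEquivZMod (f * p) M).injective hh
  · intro t ht
    rw [Finset.mem_filter] at ht
    refine ⟨(IsCyclotomicExtension.Rat.galEquivZMod (f * p) M).symm t, ?_, ?_⟩
    · rw [mem_TM, MulEquiv.apply_symm_apply]
      exact ht.2
    · rw [MulEquiv.apply_symm_apply]
  · intro σ _
    rw [hDL, hhom, hcoef]

end

/-- **Twisted Kummer relations** -/
theorem twisted_kummer (f p : ℕ) [NeZero f] [NeZero (f * p)] [hp : Fact p.Prime] (hp2 : p ≠ 2)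
    (hpf : ¬ p ∣ f) (L : Type u) [Field L] [NumberField L] [IsCyclotomicExtension {f} ℚ L]
    (K : Type v) [Field K] [NumberField K] [Algebra L K] (hd : Module.finrank L K < p)
    (a b c : 𝓞 K) (h : FSol K p a b c)
    (ha : ∀ P : Ideal (𝓞 K), P.IsPrime → (p : 𝓞 K) ∈ P → a ∉ P)
    (hc : ∀ P : Ideal (𝓞 K), P.IsPrime → (p : 𝓞 K) ∈ P → c ∉ P)
    (Ω : Type w) [Field Ω] [IsAlgClosed Ω] [CharP Ω p] (w₀ : 𝓞 L →+* Ω)
    (ψ : (ZMod f)ˣ → Fin (Module.finrank L K) → (𝓞 K →+* Ω))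
    (hψ : ∀ g, ∀ x y : 𝓞 K, (nfR L K x y).map (w₀.comp (actL f L g))
      = ∏ i, (C (ψ g i x) + X * C (ψ g i y)))
    (c₀ : ℕ) (hc₀ : 1 ≤ c₀) (hc₀' : c₀ < f * p) (j : ℕ) (hj : 2 ≤ j) (hj' : j + 2 ≤ p)
    (χ : (ZMod f)ˣ →* Ωˣ) :
    H99AB.beta Ω f p c₀ j χ = 0 ∨
      ∑ g : (ZMod f)ˣ, (χ g : Ω) * ∑ i, H69FD.LL (j - 1) (-(ψ g i b) / ψ g i a) = 0 := by
  classical
  have hfp : NeZero (((f * p : ℕ) : ℕ) : ℚ) := ⟨Nat.cast_ne_zero.2 (NeZero.ne (f * p))⟩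
  have hcyc : IsCyclotomicExtension {f * p} ℚ (CyclotomicField (f * p) ℚ) :=
    CyclotomicField.isCyclotomicExtension (f * p) ℚ
  obtain ⟨φ⟩ := exists_emb f p L (CyclotomicField (f * p) ℚ)
  let _ : Algebra L (CyclotomicField (f * p) ℚ) := φ.toRingHom.toAlgebra
  obtain ⟨e, he⟩ := exists_lift_hom L (CyclotomicField (f * p) ℚ) Ω w₀
  have hne : ∀ (x : 𝓞 K), (∀ P : Ideal (𝓞 K), P.IsPrime → (p : 𝓞 K) ∈ P → x ∉ P) →
      ∀ g i, ψ g i x ≠ 0 := by
    intro x hx g i h0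
    refine hx (RingHom.ker (ψ g i)) (RingHom.ker_isPrime _) ?_ h0
    rw [RingHom.mem_ker, map_natCast, CharP.cast_eq_zero]
  have hab : ∀ g i, ψ g i a + ψ g i b ≠ 0 := by
    intro g i h0
    have h1 := fsol_hom h (ψ g i)
    rw [h0, zero_add] at h1
    exact hne c hc g i h1
  have hDL : ∀ g : (ZMod f)ˣ, DL j ((nfR L K a b).map (w₀.comp (actL f L g))) =
      - ∑ i, H69FD.LL (j - 1) (-(ψ g i b) / ψ g i a) := by
    intro g
    rw [hψ g a b]
    exact H87AB.DL_lin_prod j hj Finset.univ (fun i => ψ g i a) (fun i => ψ g i b)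
      (fun i _ => hne a ha g i) (fun i _ => hab g i)
  rcases H99AB.fourier_rel (k := Ω) (f := f) (p := p) c₀ j hc₀ hc₀'
    (fun g => DL j ((nfR L K a b).map (w₀.comp (actL f L g)))) (by
      intro β hβ hβ' g
      have h1 := rel_b f p L (CyclotomicField (f * p) ℚ) K hp2 hpf hd a b c h hc e β hβ (by omega)
        j hj hj' g
      rw [he] at h1
      exact h1) χ with h1 | h1
  · exact Or.inl h1
  · right
    rw [Finset.sum_congr rfl fun g _ => by rw [hDL g]] at h1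
    simp only [mul_neg, Finset.sum_neg_distrib, neg_eq_zero] at h1
    exact h1

end H9AB
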