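import Mathlib

/-!
# Project AB, module RelNorm

The relative norm form `nfR L K a b = N_{K/L}(a + b X) ∈ (𝓞 L)[X]` of an extension `K/L` of number
fields, its factorisation over a field containing all the `L`-conjugates of `K`, and the reduction of
the family of the `L`-embeddings of `K` over a given `w : 𝓞 L → Ω`.

* `nfL L K a b ∈ L[X]`, `a, b ∈ K`: the determinant of `M_a + X M_b`.
* `nfL_map_prod`: it is `∏ (σ a + X σ b)` over a field with `[K:L]` homomorphisms `σ : K → E` over `L`.
* `nfR L K a b ∈ (𝓞 L)[X]`, `a, b ∈ 𝓞 K`, with image `nfL L K a b`.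
* `exists_relFam`: for `w : 𝓞 L → Ω` (`Ω` algebraically closed of characteristic `p`) there are
  homomorphisms `ψ_i : 𝓞 K → Ω` extending `w`, `i < [K:L]`, with `w(nfR) = ∏ (ψ_i a + X ψ_i b)`.
-/

namespace H9AB

open Polynomial NumberField

section

variable (L : Type*) [Field L] (K : Type*) [Field K] [Algebra L K] [FiniteDimensional L K]

/-- the norm form `N_{K/L}(a + b X)` -/
noncomputable def nfL (a b : K) : L[X] :=
  Matrix.det ((Algebra.leftMulMatrix (Module.Free.chooseBasis L K) a).map (C : L →+* L[X])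
    + (X : L[X]) • (Algebra.leftMulMatrix (Module.Free.chooseBasis L K) b).map (C : L →+* L[X]))

theorem nfL_eval (a b : K) (t : L) :
    (nfL L K a b).eval t = Algebra.norm L (a + t • b) := by
  unfold nfL
  rw [← coe_evalRingHom, RingHom.map_det,
    Algebra.norm_eq_matrix_det (Module.Free.chooseBasis L K)]
  congr 1
  rw [map_add (Algebra.leftMulMatrix (Module.Free.chooseBasis L K)),
    map_smul (Algebra.leftMulMatrix (Module.Free.chooseBasis L K))]
  ext i j
  simp only [RingHom.mapMatrix_apply, Matrix.map_apply, Matrix.add_apply, Matrix.smul_apply,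
    coe_evalRingHom, eval_add, eval_C, smul_eq_mul, eval_mul, eval_X]

private theorem RelNorm_norm [CharZero L] (E : Type*) [Field E] [Algebra L E]
    (hE : Fintype.card (K →ₐ[L] E) = Module.finrank L K) (x : K) :
    algebraMap L E (Algebra.norm L x) = ∏ σ : K →ₐ[L] E, σ x := by
  let A := AlgebraicClosure E
  have hinj : Function.Injective (algebraMap E A) := (algebraMap E A).injective
  apply hinj
  rw [map_prod]
  have h1 : algebraMap E A (algebraMap L E (Algebra.norm L x)) =
      algebraMap L A (Algebra.norm L x) := (IsScalarTower.algebraMap_apply L E A _).symm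
  rw [h1, Algebra.norm_eq_prod_embeddings L A x]
  let F : (K →ₐ[L] E) → (K →ₐ[L] A) := fun σ => (IsScalarTower.toAlgHom L E A).comp σ
  have hF : Function.Injective F := by
    intro σ τ h
    ext y
    apply hinj
    exact DFunLike.congr_fun h y
  have hF2 : Function.Bijective F := by
    rw [Fintype.bijective_iff_injective_and_card]
    refine ⟨hF, ?_⟩
    rw [hE, AlgHom.card L K A]
  exact (Fintype.prod_bijective F hF2 _ _ fun σ => rfl).symm

/-- the norm form splits over a field containing all conjugates of `K` -/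
theorem nfL_map_prod [CharZero L] (E : Type*) [Field E] [Algebra L E]
    (hE : Fintype.card (K →ₐ[L] E) = Module.finrank L K) (a b : K) :
    (nfL L K a b).map (algebraMap L E) = ∏ σ : K →ₐ[L] E, (C (σ a) + X * C (σ b)) := by
  apply eq_of_infinite_eval_eq
  refine Set.Infinite.mono ?_
    (Set.infinite_range_of_injective ((algebraMap L E).injective))
  rintro _ ⟨t, rfl⟩
  show ((nfL L K a b).map (algebraMap L E)).eval (algebraMap L E t) =
    eval (algebraMap L E t) (∏ σ : K →ₐ[L] E, (C (σ a) + X * C (σ b)))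
  rw [eval_map_apply, nfL_eval, RelNorm_norm L K E hE, eval_prod]
  refine Finset.prod_congr rfl fun σ _ => ?_
  rw [map_add, map_smul]
  simp only [eval_add, eval_mul, eval_C, eval_X, Algebra.smul_def]

end

section

variable (L : Type*) [Field L] [NumberField L] (K : Type*) [Field K] [NumberField K] [Algebra L K]

theorem exists_nfR (a b : 𝓞 K) :
    ∃ P : (𝓞 L)[X], P.map (algebraMap (𝓞 L) L) = nfL L K (a : K) (b : K) := by
  classical
  let A := AlgebraicClosure K
  have hA : Fintype.card (K →ₐ[L] A) = Module.finrank L K := AlgHom.card L K A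
  have h1 := nfL_map_prod L K A hA (a : K) (b : K)
  have hint : ∀ n, IsIntegral ℤ ((nfL L K (a : K) (b : K)).coeff n) := by
    intro n
    rw [← isIntegral_algebraMap_iff (algebraMap L A).injective, ← coeff_map, h1]
    have h2 : (∏ σ : K →ₐ[L] A, (C (σ (a : K)) + X * C (σ (b : K)))) =
        (∏ σ : K →ₐ[L] A, (C (⟨σ (a : K), (map_isIntegral_int (σ : K →+* A)
            (RingOfIntegers.isIntegral_coe a))⟩ : integralClosure ℤ A)
          + X * C (⟨σ (b : K), (map_isIntegral_int (σ : K →+* A)
            (RingOfIntegers.isIntegral_coe b))⟩ : integralClosure ℤ A))).map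
          (algebraMap (integralClosure ℤ A) A) := by
      rw [Polynomial.map_prod]
      refine Finset.prod_congr rfl fun σ _ => ?_
      rw [Polynomial.map_add, Polynomial.map_mul, map_C, map_C, map_X]
      rfl
    rw [h2, coeff_map]
    exact (integralClosure.isIntegral _ : IsIntegral ℤ _).algebraMap
  have h3 : nfL L K (a : K) (b : K) ∈ Polynomial.lifts (algebraMap (𝓞 L) L) := by
    rw [Polynomial.lifts_iff_coeff_lifts]
    intro n
    exact ⟨⟨_, hint n⟩, rfl⟩
  obtain ⟨P, hP⟩ := (Polynomial.mem_lifts _).1 h3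
  exact ⟨P, hP⟩

/-- the relative norm form `N_{K/L}(a + b X)` with coefficients in the ring of integers of `L` -/
noncomputable def nfR (a b : 𝓞 K) : (𝓞 L)[X] := Classical.choose (exists_nfR L K a b)

theorem nfR_map (a b : 𝓞 K) : (nfR L K a b).map (algebraMap (𝓞 L) L) = nfL L K (a : K) (b : K) :=
  Classical.choose_spec (exists_nfR L K a b)

/-- the norm form over the ring of integers of a number field with all conjugates -/
theorem nfR_map_prod (N : Type*) [Field N] [NumberField N] [Algebra L N]
    (hN : Fintype.card (K →ₐ[L] N) = Module.finrank L K) (a b : 𝓞 K) :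
    (nfR L K a b).map (algebraMap (𝓞 L) (𝓞 N)) = ∏ σ : K →ₐ[L] N,
      (C (RingOfIntegers.mapRingHom (σ : K →+* N) a)
        + X * C (RingOfIntegers.mapRingHom (σ : K →+* N) b)) := by
  apply map_injective (algebraMap (𝓞 N) N) RingOfIntegers.coe_injective
  rw [map_map]
  have h2 : (algebraMap (𝓞 N) N).comp (algebraMap (𝓞 L) (𝓞 N)) =
      (algebraMap L N).comp (algebraMap (𝓞 L) L) := by
    ext x
    rfl
  rw [h2, ← map_map, nfR_map, nfL_map_prod L K N hN, Polynomial.map_prod]
  refine Finset.prod_congr rfl fun σ _ => ?_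
  rw [Polynomial.map_add, Polynomial.map_mul, map_C, map_C, map_X]
  rfl

/-- the norm form as a product, evaluated -/
theorem nfR_eval_prod (N : Type*) [Field N] [NumberField N] [Algebra L N]
    (hN : Fintype.card (K →ₐ[L] N) = Module.finrank L K) (a b : 𝓞 K) (z : 𝓞 N) :
    (nfR L K a b).eval₂ (algebraMap (𝓞 L) (𝓞 N)) z = ∏ σ : K →ₐ[L] N,
      (RingOfIntegers.mapRingHom (σ : K →+* N) a
        + z * RingOfIntegers.mapRingHom (σ : K →+* N) b) := by
  rw [Polynomial.eval₂_eq_eval_map, nfR_map_prod L K N hN, Polynomial.eval_prod]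
  refine Finset.prod_congr rfl fun σ _ => ?_
  rw [Polynomial.eval_add, Polynomial.eval_mul, Polynomial.eval_C, Polynomial.eval_X,
    Polynomial.eval_C]

end

/-- extension of a homomorphism to an algebraically closed field -/
theorem exists_lift_hom (L : Type*) [Field L] [NumberField L] (N : Type*) [Field N] [NumberField N]
    [Algebra L N] (Ω : Type*) [Field Ω] [IsAlgClosed Ω] (w : 𝓞 L →+* Ω) :
    ∃ χ : 𝓞 N →+* Ω, χ.comp (algebraMap (𝓞 L) (𝓞 N)) = w := by
  have hp : (RingHom.ker w).IsPrime := RingHom.ker_isPrime w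
  obtain ⟨P, hP, hPl⟩ := (RingHom.ker w).nonempty_primesOver (S := 𝓞 N)
  let _ : Algebra (𝓞 L ⧸ RingHom.ker w) Ω := (RingHom.kerLift w).toAlgebra
  have hinj : Function.Injective (algebraMap (𝓞 L ⧸ RingHom.ker w) Ω) := RingHom.kerLift_injective w
  have h1 : Module.IsTorsionFree (𝓞 L ⧸ RingHom.ker w) Ω :=
    (Module.isTorsionFree_iff_algebraMap_injective).2 hinj
  have h2 : Module.IsTorsionFree (𝓞 L ⧸ RingHom.ker w) (𝓞 N ⧸ P) := inferInstance
  have h3 : Algebra.IsAlgebraic (𝓞 L ⧸ RingHom.ker w) (𝓞 N ⧸ P) := inferInstance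
  let φ : (𝓞 N ⧸ P) →ₐ[𝓞 L ⧸ RingHom.ker w] Ω := IsAlgClosed.lift
  refine ⟨(φ : (𝓞 N ⧸ P) →+* Ω).comp (Ideal.Quotient.mk P), ?_⟩
  ext x
  show φ (Ideal.Quotient.mk P (algebraMap (𝓞 L) (𝓞 N) x)) = w x
  have h4 : Ideal.Quotient.mk P (algebraMap (𝓞 L) (𝓞 N) x) =
      algebraMap (𝓞 L ⧸ RingHom.ker w) (𝓞 N ⧸ P) (Ideal.Quotient.mk _ x) := rfl
  rw [h4, φ.commutes]
  rfl

theorem exists_relFam (L : Type*) [Field L] [NumberField L] (K : Type*) [Field K] [NumberField K]
    [Algebra L K] (Ω : Type*) [Field Ω] [IsAlgClosed Ω] (w : 𝓞 L →+* Ω) :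
    ∃ ψ : Fin (Module.finrank L K) → (𝓞 K →+* Ω),
      (∀ i, (ψ i).comp (algebraMap (𝓞 L) (𝓞 K)) = w) ∧
      ∀ a b : 𝓞 K, (nfR L K a b).map w = ∏ i, (C (ψ i a) + X * C (ψ i b)) := by
  classical
  let N := IntermediateField.normalClosure L K (AlgebraicClosure K)
  have : CharZero N := charZero_of_injective_algebraMap (algebraMap L N).injective
  have hNf : NumberField N := by
    refine { to_charZero := inferInstance, to_finiteDimensional := ?_ }
    have : IsScalarTower ℚ L N := IsScalarTower.of_algebraMap_eq' (Subsingleton.elim _ _)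
    exact Module.Finite.trans L N
  have hcard : Fintype.card (K →ₐ[L] N) = Module.finrank L K :=
    (Fintype.card_congr (normalClosure.algHomEquiv L K (AlgebraicClosure K))).trans
      (AlgHom.card L K (AlgebraicClosure K))
  obtain ⟨χ, hχ⟩ := exists_lift_hom L N Ω w
  let e : Fin (Module.finrank L K) ≃ (K →ₐ[L] N) := (Fintype.equivFinOfCardEq hcard).symm
  refine ⟨fun i => χ.comp (RingOfIntegers.mapRingHom (e i : K →+* N)), fun i => ?_, fun a b => ?_⟩
  · rw [← hχ]
    ext x
    show χ (RingOfIntegers.mapRingHom (e i : K →+* N) (algebraMap (𝓞 L) (𝓞 K) x)) =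
      χ (algebraMap (𝓞 L) (𝓞 N) x)
    congr 1
    apply RingOfIntegers.coe_injective
    show (e i) (algebraMap L K (x : L)) = algebraMap L N (x : L)
    exact (e i).commutes _
  · rw [← hχ, ← map_map, nfR_map_prod L K N hcard, Polynomial.map_prod, ← Equiv.prod_comp e]
    refine Finset.prod_congr rfl fun i _ => ?_
    rw [Polynomial.map_add, Polynomial.map_mul, map_C, map_C, map_X]
    rfl

end H9AB
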