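import Pool.Agent.H9.FC.Defs

/-!
# Project AB, module DefsM: the Stickelberger elements for `ℚ(ζ_m)`, `m` arbitrary

* `TM m M b` : the set of those `σ ∈ Gal(M/ℚ)`, `M = ℚ(ζ_m)`, `σ ζ = ζ ^ t`, `0 ≤ t < m`, with
  `m < t + (b t mod m)`. For `b = 1`: `m < 2 t`.
* `cjM m M` : complex conjugation on `M = ℚ(ζ_m)`, as an element of `Gal(M/ℚ)`.
-/

namespace H9AB

open NumberField

/-- the automorphisms `σ_t` of `ℚ(ζ_m)`, `σ_t ζ = ζ ^ t`, `0 ≤ t < m`, with `m < t + (b t mod m)` -/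
noncomputable def TM (m : ℕ) [NeZero m] (M : Type*) [Field M] [NumberField M]
    [IsCyclotomicExtension {m} ℚ M] (b : ℕ) : Finset (M ≃ₐ[ℚ] M) := by
  classical
  exact Finset.univ.filter
    (fun σ => m < (IsCyclotomicExtension.Rat.galEquivZMod m M σ).val.val
      + (b * (IsCyclotomicExtension.Rat.galEquivZMod m M σ).val.val) % m)

/-- complex conjugation of `ℚ(ζ_m)` -/
noncomputable def cjM (m : ℕ) [NeZero m] (M : Type*) [Field M] [NumberField M]
    [IsCyclotomicExtension {m} ℚ M] : M ≃ₐ[ℚ] M :=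
  (IsCyclotomicExtension.Rat.galEquivZMod m M).symm (-1)

theorem mem_TM (m : ℕ) [NeZero m] (M : Type*) [Field M] [NumberField M]
    [IsCyclotomicExtension {m} ℚ M] (b : ℕ) (σ : M ≃ₐ[ℚ] M) : σ ∈ TM m M b ↔
      m < (IsCyclotomicExtension.Rat.galEquivZMod m M σ).val.val
        + (b * (IsCyclotomicExtension.Rat.galEquivZMod m M σ).val.val) % m := by
  unfold TM
  rw [Finset.mem_filter]
  simp only [Finset.mem_univ, true_and]

end H9AB
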