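import Pool.Agent.H9.FC.OrdA
import Pool.Agent.H9.AB.DefsM

/-!
# Project AB, module DecM

Decomposition of a prime number `l ∤ m` in `M = ℚ(ζ_m)` (see H9.FC.Dec for `m` prime).
-/

namespace H9AB

open NumberField H9FC
open scoped Pointwise

private theorem DecM_ne_bot {M : Type*} [Field M] [NumberField M] {l : ℕ} (hl0 : l ≠ 0)
    {𝔩 : Ideal (𝓞 M)} (hl : (l : 𝓞 M) ∈ 𝔩) : 𝔩 ≠ ⊥ := by
  intro h
  rw [h, Ideal.mem_bot] at hl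
  exact hl0 (by exact_mod_cast hl)

private theorem DecM_over {M : Type*} [Field M] [NumberField M] (l : ℕ) [hlp : Fact l.Prime]
    (𝔩 : Ideal (𝓞 M)) (h𝔩 : 𝔩.IsPrime) (hl : (l : 𝓞 M) ∈ 𝔩) :
    𝔩.LiesOver (Ideal.span {(l : ℤ)}) := by
  constructor
  have h0 : (l : ℤ) ≠ 0 := by exact_mod_cast hlp.out.ne_zero
  have h1 : (Ideal.span {(l : ℤ)}).IsPrime := by
    rw [Ideal.span_singleton_prime h0]
    exact Nat.prime_iff_prime_int.mp hlp.out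
  have h2 : (Ideal.span {(l : ℤ)}).IsMaximal := h1.isMaximal (by
    rw [Ne, Ideal.span_singleton_eq_bot]; exact h0)
  have h3 : Ideal.span {(l : ℤ)} ≤ 𝔩.under ℤ := by
    rw [Ideal.span_singleton_le_iff_mem]
    show algebraMap ℤ (𝓞 M) (l : ℤ) ∈ 𝔩
    rw [map_natCast]
    exact hl
  have h4 : (𝔩.under ℤ) ≠ ⊤ := (Ideal.IsPrime.under ℤ 𝔩).ne_top
  exact h2.eq_of_le h4 h3

theorem decM_ord (m : ℕ) [NeZero m] (M : Type*) [Field M] [NumberField M]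
    [IsCyclotomicExtension {m} ℚ M] (l : ℕ) [Fact l.Prime] (hlm : ¬ l ∣ m) (𝔩 : Ideal (𝓞 M))
    (h𝔩 : 𝔩.IsPrime) (hl : (l : 𝓞 M) ∈ 𝔩) : ordI 𝔩 (Ideal.span {(l : 𝓞 M)}) = 1 := by
  classical
  have h1 := DecM_over l 𝔩 h𝔩 hl
  have h2 : (Ideal.span {(l : ℤ)}).map (algebraMap ℤ (𝓞 M)) = Ideal.span {(l : 𝓞 M)} := by
    rw [Ideal.map_span, Set.image_singleton, map_natCast]
  have h0 : (l : 𝓞 M) ≠ 0 := by exact_mod_cast (Fact.out : l.Prime).ne_zero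
  have h3 : (Ideal.span {(l : ℤ)}).map (algebraMap ℤ (𝓞 M)) ≠ ⊥ := by
    rw [h2, Ne, Ideal.span_singleton_eq_bot]; exact h0
  have h4 := Ideal.IsDedekindDomain.ramificationIdx_eq_normalizedFactors_count
    (Ideal.span {(l : ℤ)}) 𝔩 h3
  rw [IsCyclotomicExtension.Rat.ramificationIdx_eq_of_not_dvd (m := m) l M 𝔩 hlm, h2] at h4
  unfold ordI
  rw [h4]

theorem decM_card (m : ℕ) [NeZero m] (M : Type*) [Field M] [NumberField M]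
    [IsCyclotomicExtension {m} ℚ M] (l : ℕ) [Fact l.Prime] (hlm : ¬ l ∣ m) (𝔩 : Ideal (𝓞 M))
    (h𝔩 : 𝔩.IsPrime) (hl : (l : 𝓞 M) ∈ 𝔩) :
    Nat.card (𝓞 M ⧸ 𝔩) = l ^ orderOf (l : ZMod m) := by
  have h1 := DecM_over l 𝔩 h𝔩 hl
  have h2 := Ideal.pow_inertiaDeg l 𝔩
  rw [IsCyclotomicExtension.Rat.inertiaDeg_eq_of_not_dvd (m := m) l M 𝔩 hlm] at h2
  rw [h2]
  rfl

theorem decM_stab (m : ℕ) [NeZero m] (M : Type*) [Field M] [NumberField M]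
    [IsCyclotomicExtension {m} ℚ M] (l : ℕ) [Fact l.Prime] (hlm : ¬ l ∣ m) (𝔩 : Ideal (𝓞 M))
    (h𝔩 : 𝔩.IsPrime) (hl : (l : 𝓞 M) ∈ 𝔩) (σ : M ≃ₐ[ℚ] M) :
    σ • 𝔩 = 𝔩 ↔ ∃ i < orderOf (l : ZMod m),
      ((IsCyclotomicExtension.Rat.galEquivZMod m M σ : (ZMod m)ˣ) : ZMod m) = (l : ZMod m) ^ i := by
  classical
  have h1 := DecM_over l 𝔩 h𝔩 hl
  have hmax : 𝔩.IsMaximal := h𝔩.isMaximal (DecM_ne_bot (Fact.out : l.Prime).ne_zero hl)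
  have hcop : l.Coprime m :=
    (Nat.Prime.coprime_iff_not_dvd (Fact.out : l.Prime)).mpr hlm
  have h2 := IsCyclotomicExtension.Rat.galEquivZMod_stabilizer m M l 𝔩 hcop
  have h3 : σ • 𝔩 = 𝔩 ↔ IsCyclotomicExtension.Rat.galEquivZMod m M σ ∈
      Subgroup.zpowers (ZMod.unitOfCoprime l hcop) := by
    rw [← h2]
    constructor
    · intro h
      exact ⟨σ, MulAction.mem_stabilizer_iff.mpr h, rfl⟩
    · rintro ⟨τ, hτ, hτ2⟩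
      have h5 : τ = σ := (IsCyclotomicExtension.Rat.galEquivZMod m M).injective hτ2
      rw [← h5]
      exact MulAction.mem_stabilizer_iff.mp hτ
  have h4 : orderOf (ZMod.unitOfCoprime l hcop) = orderOf (l : ZMod m) := by
    rw [← orderOf_units, ZMod.coe_unitOfCoprime]
  rw [h3, mem_zpowers_iff_mem_range_orderOf, Finset.mem_image]
  constructor
  · rintro ⟨i, hi, hi2⟩
    rw [Finset.mem_range, h4] at hi
    refine ⟨i, hi, ?_⟩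
    rw [← hi2, Units.val_pow_eq_pow_val, ZMod.coe_unitOfCoprime]
  · rintro ⟨i, hi, hi2⟩
    refine ⟨i, ?_, ?_⟩
    · rw [Finset.mem_range, h4]; exact hi
    · apply Units.ext
      rw [Units.val_pow_eq_pow_val, ZMod.coe_unitOfCoprime, hi2]

theorem decM_trans (m : ℕ) [NeZero m] (M : Type*) [Field M] [NumberField M]
    [IsCyclotomicExtension {m} ℚ M] (l : ℕ) [Fact l.Prime] (𝔩 𝔮 : Ideal (𝓞 M))
    (h𝔩 : 𝔩.IsPrime) (hl : (l : 𝓞 M) ∈ 𝔩) (h𝔮 : 𝔮.IsPrime) (hq : (l : 𝓞 M) ∈ 𝔮) :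
    ∃ σ : M ≃ₐ[ℚ] M, σ • 𝔩 = 𝔮 := by
  have h1 := DecM_over l 𝔩 h𝔩 hl
  have h2 := DecM_over l 𝔮 h𝔮 hq
  have h3 : IsGalois ℚ M := IsCyclotomicExtension.isGalois {m} ℚ M
  exact Ideal.exists_smul_eq_of_isGaloisGroup (Ideal.span {(l : ℤ)}) 𝔩 𝔮 (M ≃ₐ[ℚ] M)

end H9AB
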