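import Pool.Agent.H9.AB.JValM

/-!
# Project AB, module JIdealM

Factorisation of the Jacobi sums attached to a prime ideal `𝔩` of `𝓞 M`, `M = ℚ(ζ_m)`, not
dividing `m` (see H9.FC.JIdeal for `m` prime), and the theorem of Stickelberger for the elements
`∑_{t} ([(b+1)t/m] - [bt/m]) σ_t⁻¹`, `1 ≤ b ≤ m - 2`.
-/

namespace H9AB

open NumberField H9FC
open scoped Pointwise

private theorem JIdealM_smul_span {R G : Type*} [CommRing R] [Group G] [MulSemiringAction G R]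
    (σ : G) (x : R) : σ • Ideal.span {x} = Ideal.span {σ • x} := by
  rw [Ideal.pointwise_smul_def, Ideal.map_span, Set.image_singleton]
  rfl

private theorem JIdealM_smul_natCast {R G : Type*} [CommRing R] [Group G] [MulSemiringAction G R]
    (σ : G) (n : ℕ) : σ • (n : R) = (n : R) := by
  have h := map_natCast (MulSemiringAction.toRingHom G R σ) n
  exact h

private theorem JIdealM_natCast_mem {R G : Type*} [CommRing R] [Group G] [MulSemiringAction G R]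
    (σ : G) (I : Ideal R) (n : ℕ) : (n : R) ∈ σ • I ↔ (n : R) ∈ I := by
  conv_lhs => rw [← JIdealM_smul_natCast σ n]
  exact Ideal.smul_mem_pointwise_smul_iff

private theorem JIdealM_smul_ne_bot {R G : Type*} [CommRing R] [Group G] [MulSemiringAction G R]
    (σ : G) (I : Ideal R) (h : I ≠ ⊥) : σ • I ≠ ⊥ := by
  intro h1
  apply h
  rw [eq_bot_iff]
  intro x hx
  have h2 : σ • x ∈ σ • I := Ideal.smul_mem_pointwise_smul_iff.2 hx
  rw [h1, Ideal.mem_bot, smul_eq_zero_iff_eq] at h2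
  rw [h2]
  exact Ideal.zero_mem _

private theorem JIdealM_card (m : ℕ) [NeZero m] (M : Type*) [Field M] [NumberField M]
    [IsCyclotomicExtension {m} ℚ M] (b l : ℕ) [Fact l.Prime] (hlm : ¬ l ∣ m) (𝔩 : Ideal (𝓞 M))
    (h𝔩 : 𝔩.IsPrime) (hl : (l : 𝓞 M) ∈ 𝔩) (τ : M ≃ₐ[ℚ] M) [DecidablePred fun σ : M ≃ₐ[ℚ] M =>
      σ⁻¹ • 𝔩 = τ⁻¹ • 𝔩] :
    ((TM m M b).filter (fun σ => σ⁻¹ • 𝔩 = τ⁻¹ • 𝔩)).card =
      ((Finset.range (orderOf (l : ZMod m))).filter (fun i =>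
          m < (l ^ i * (IsCyclotomicExtension.Rat.galEquivZMod m M τ).val.val) % m
            + (l ^ i * (b * (IsCyclotomicExtension.Rat.galEquivZMod m M τ).val.val)) % m)).card := by
  classical
  have hlf : l.Prime := Fact.out
  have hcop : Nat.Coprime l m := (Nat.Prime.coprime_iff_not_dvd hlf).2 hlm
  set g := IsCyclotomicExtension.Rat.galEquivZMod m M with hg
  set u : (ZMod m)ˣ := ZMod.unitOfCoprime l hcop with hu
  have huv : (u : ZMod m) = (l : ZMod m) := ZMod.coe_unitOfCoprime l hcop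
  set t : ℕ := (g τ).val.val with ht
  have hval : ∀ i : ℕ, (u ^ i * g τ : (ZMod m)ˣ).val.val = (l ^ i * t) % m := by
    intro i
    have h1 : ((u ^ i * g τ : (ZMod m)ˣ) : ZMod m) = ((l ^ i * t : ℕ) : ZMod m) := by
      rw [Units.val_mul, Units.val_pow_eq_pow_val, huv, Nat.cast_mul, Nat.cast_pow, ht,
        ZMod.natCast_zmod_val]
    rw [h1, ZMod.val_natCast]
  have hTM : ∀ σ : M ≃ₐ[ℚ] M, σ ∈ TM m M b ↔
      m < (g σ).val.val + (b * (g σ).val.val) % m := fun σ => mem_TM m M b σ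
  have hcond : ∀ i : ℕ, g.symm (u ^ i * g τ) ∈ TM m M b ↔
      m < (l ^ i * t) % m + (l ^ i * (b * t)) % m := by
    intro i
    rw [hTM, MulEquiv.apply_symm_apply, hval]
    have h1 : (b * ((l ^ i * t) % m)) % m = (l ^ i * (b * t)) % m := by
      rw [Nat.mul_mod_mod]
      congr 1
      ring
    rw [h1]
  have hstab : ∀ σ : M ≃ₐ[ℚ] M, σ⁻¹ • 𝔩 = τ⁻¹ • 𝔩 ↔
      ∃ i < orderOf (l : ZMod m), σ = g.symm (u ^ i * g τ) := by
    intro σ
    have h1 := decM_stab m M l hlm 𝔩 h𝔩 hl (σ * τ⁻¹)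
    have h2 : (σ * τ⁻¹) • 𝔩 = 𝔩 ↔ σ⁻¹ • 𝔩 = τ⁻¹ • 𝔩 := by
      rw [mul_smul, smul_eq_iff_eq_inv_smul]
      exact eq_comm
    rw [← h2, h1]
    refine exists_congr fun i => and_congr_right fun _ => ?_
    rw [← hg, map_mul, map_inv]
    constructor
    · intro h
      have h3 : g σ * (g τ)⁻¹ = u ^ i := by
        refine Units.ext ?_
        rw [h, Units.val_pow_eq_pow_val, huv]
      rw [← h3, inv_mul_cancel_right, MulEquiv.symm_apply_apply]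
    · intro h
      rw [h, MulEquiv.apply_symm_apply, mul_inv_cancel_right, Units.val_pow_eq_pow_val, huv]
  symm
  refine Finset.card_bij (fun i _ => g.symm (u ^ i * g τ)) ?_ ?_ ?_
  · intro i hi
    rw [Finset.mem_filter, Finset.mem_range] at hi
    rw [Finset.mem_filter]
    exact ⟨(hcond i).2 hi.2, (hstab _).2 ⟨i, hi.1, rfl⟩⟩
  · intro i hi j hj hij
    rw [Finset.mem_filter, Finset.mem_range] at hi hj
    have h1 := mul_right_cancel (g.symm.injective hij)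
    have h2 : (l : ZMod m) ^ i = (l : ZMod m) ^ j := by
      have h3 := congrArg (fun x : (ZMod m)ˣ => (x : ZMod m)) h1
      simpa only [Units.val_pow_eq_pow_val, huv] using h3
    exact pow_injOn_Iio_orderOf hi.1 hj.1 h2
  · intro σ hσ
    rw [Finset.mem_filter] at hσ
    obtain ⟨i, hi, rfl⟩ := (hstab σ).1 hσ.2
    exact ⟨i, Finset.mem_filter.2 ⟨Finset.mem_range.2 hi, (hcond i).1 hσ.1⟩, rfl⟩

private theorem JIdealM_core (m : ℕ) [NeZero m] (M : Type*) [Field M]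
    [NumberField M] [IsCyclotomicExtension {m} ℚ M]
    (b : ℕ) (hb : 1 ≤ b) (hb' : b + 2 ≤ m) {k : Type*} [Field k] [Fintype k] (π : 𝓞 M →+* k)
    (hπ : Function.Surjective π) (hm : (m : k) ≠ 0) (h0 : RingHom.ker π ≠ ⊥) :
    ∃ J : 𝓞 M, Ideal.span {J} = ∏ σ ∈ TM m M b, σ⁻¹ • RingHom.ker π ∧
      J * (cjM m M • J) = (Fintype.card k : 𝓞 M) := by
  classical
  obtain ⟨l, hl⟩ : ∃ l, ringChar k = l := ⟨_, rfl⟩
  have hlf : Fact l.Prime := by
    rw [← hl]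
    exact ⟨CharP.char_is_prime k (ringChar k)⟩
  have hchk : CharP k l := by rw [← hl]; exact ringChar.charP k
  have hl1 : 1 < l := hlf.out.one_lt
  have hlnm : ¬ l ∣ m := by
    intro h
    exact hm ((CharP.cast_eq_zero_iff k l m).2 h)
  have hkp : (RingHom.ker π).IsPrime := RingHom.ker_isPrime π
  have hlk : (l : 𝓞 M) ∈ RingHom.ker π := by
    rw [RingHom.mem_ker, map_natCast]
    exact CharP.cast_eq_zero k l
  have hcard : Fintype.card k = l ^ orderOf (l : ZMod m) := by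
    rw [← decM_card m M l hlnm (RingHom.ker π) hkp hlk, ← Nat.card_eq_fintype_card]
    exact (Nat.card_congr (RingHom.quotientKerEquivOfSurjective hπ).toEquiv).symm
  obtain ⟨hdvd, χ, hχ, hχπ⟩ := exists_resCharM m M π hm
  have hJc := jac_mul_cjM m M χ hχ b hb hb'
  have hJv := jac_valM m M π hπ hm l (orderOf (l : ZMod m)) hl hcard χ hχ hχπ b hb hb'
  set J : 𝓞 M := jacobiSum χ⁻¹ (χ⁻¹ ^ b) with hJ
  have hQ0 : ((Fintype.card k : ℕ) : 𝓞 M) ≠ 0 := Nat.cast_ne_zero.2 Fintype.card_ne_zero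
  have hJ0 : J ≠ 0 := by
    intro h
    rw [h, zero_mul] at hJc
    exact hQ0 hJc.symm
  refine ⟨J, ?_, hJc⟩
  set 𝔩 : Ideal (𝓞 M) := RingHom.ker π with h𝔩
  have hne : ∀ σ : M ≃ₐ[ℚ] M, σ⁻¹ • 𝔩 ≠ ⊥ := fun σ => JIdealM_smul_ne_bot _ _ h0
  have hpr : ∀ σ : M ≃ₐ[ℚ] M, (σ⁻¹ • 𝔩).IsPrime := fun σ => (Ideal.IsPrime.smul_iff _).2 hkp
  have hspanJ : Ideal.span {J} ≠ ⊥ := by
    rw [Ne, Ideal.span_singleton_eq_bot]; exact hJ0
  refine ordI_ext _ _ hspanJ ?_ ?_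
  · rw [← Ideal.zero_eq_bot, Finset.prod_ne_zero_iff]
    intro σ _
    rw [Ideal.zero_eq_bot]
    exact hne σ
  · intro 𝔮 h𝔮 h𝔮0
    rw [ordI_prod 𝔮 _ _ fun σ _ => hne σ]
    have hterm : ∀ σ : M ≃ₐ[ℚ] M, ordI 𝔮 (σ⁻¹ • 𝔩) = if σ⁻¹ • 𝔩 = 𝔮 then 1 else 0 := by
      intro σ
      by_cases h : σ⁻¹ • 𝔩 = 𝔮
      · rw [if_pos h, h]
        exact ordI_self 𝔮 h𝔮 h𝔮0
      · rw [if_neg h]
        exact ordI_of_ne 𝔮 _ h𝔮 h𝔮0 (hpr σ) (hne σ) fun h1 => h h1.symm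
    rw [Finset.sum_congr rfl fun σ _ => hterm σ, ← Finset.card_filter]
    by_cases hlq : (l : 𝓞 M) ∈ 𝔮
    · obtain ⟨τ', hτ'⟩ := decM_trans m M l 𝔩 𝔮 hkp hlk h𝔮 hlq
      obtain ⟨τ, rfl⟩ : ∃ τ : M ≃ₐ[ℚ] M, τ' = τ⁻¹ := ⟨τ'⁻¹, (inv_inv τ').symm⟩
      subst hτ'
      rw [JIdealM_card m M b l hlnm 𝔩 hkp hlk τ, ← hJv τ, ← JIdealM_smul_span]
      have h1 := ordI_smul τ⁻¹ 𝔩 (τ • Ideal.span {J}) hkp h0
      rw [inv_smul_smul] at h1
      exact h1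
    · have h1 : J ∉ 𝔮 := by
        intro h
        have h2 : (l : 𝓞 M) ^ orderOf (l : ZMod m) ∈ 𝔮 := by
          have h3 := 𝔮.mul_mem_right (cjM m M • J) h
          rw [hJc, hcard] at h3
          push_cast at h3
          exact h3
        exact hlq (h𝔮.mem_of_pow_mem _ h2)
      rw [(ordI_span_eq_zero_iff 𝔮 h𝔮 h𝔮0 J hJ0).2 h1]
      symm
      rw [Finset.card_eq_zero, Finset.filter_eq_empty_iff]
      intro σ _ h
      apply hlq
      rw [← h, JIdealM_natCast_mem]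
      exact hlk

theorem exists_stick_primeM (m : ℕ) [NeZero m] (M : Type*) [Field M]
    [NumberField M] [IsCyclotomicExtension {m} ℚ M]
    (b : ℕ) (hb : 1 ≤ b) (hb' : b + 2 ≤ m)
    (𝔩 : Ideal (𝓞 M)) (h𝔩 : 𝔩.IsPrime) (h0 : 𝔩 ≠ ⊥) (hm𝔩 : (m : 𝓞 M) ∉ 𝔩) :
    ∃ J : 𝓞 M, Ideal.span {J} = ∏ σ ∈ TM m M b, σ⁻¹ • 𝔩 ∧
      J * (cjM m M • J) = (Ideal.absNorm 𝔩 : 𝓞 M) := by
  classical
  haveI hmax : 𝔩.IsMaximal := h𝔩.isMaximal h0
  letI : Field (𝓞 M ⧸ 𝔩) := Ideal.Quotient.field 𝔩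
  haveI : Finite (𝓞 M ⧸ 𝔩) := Ideal.finiteQuotientOfFreeOfNeBot 𝔩 h0
  letI : Fintype (𝓞 M ⧸ 𝔩) := Fintype.ofFinite _
  have hker : RingHom.ker (Ideal.Quotient.mk 𝔩) = 𝔩 := Ideal.mk_ker
  have hp : ((m : ℕ) : 𝓞 M ⧸ 𝔩) ≠ 0 := by
    intro h
    apply hm𝔩
    rw [← Ideal.Quotient.eq_zero_iff_mem, map_natCast]
    exact h
  obtain ⟨J, h1, h2⟩ := JIdealM_core m M b hb hb' (Ideal.Quotient.mk 𝔩)
    Ideal.Quotient.mk_surjective hp (by rw [hker]; exact h0)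
  refine ⟨J, ?_, ?_⟩
  · rw [hker] at h1
    exact h1
  · rw [h2, ← Nat.card_eq_fintype_card]
    rfl

/-- the theorem of Stickelberger, with control of the absolute values -/
theorem exists_stick_m (m : ℕ) [NeZero m] (M : Type*) [Field M]
    [NumberField M] [IsCyclotomicExtension {m} ℚ M]
    (b : ℕ) (hb : 1 ≤ b) (hb' : b + 2 ≤ m) (𝔞 : Ideal (𝓞 M)) (h0 : 𝔞 ≠ ⊥)
    (hp𝔞 : ∀ P : Ideal (𝓞 M), P.IsPrime → (m : 𝓞 M) ∈ P → ¬ 𝔞 ≤ P) :
    ∃ J : 𝓞 M, Ideal.span {J} = ∏ σ ∈ TM m M b, σ⁻¹ • 𝔞 ∧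
      J * (cjM m M • J) = (Ideal.absNorm 𝔞 : 𝓞 M) := by
  classical
  induction 𝔞 using UniqueFactorizationMonoid.induction_on_prime with
  | h₁ => exact absurd rfl h0
  | h₂ x hx =>
    rw [Ideal.isUnit_iff] at hx
    subst hx
    refine ⟨1, ?_, ?_⟩
    · have h1 : ∀ σ ∈ TM m M b, σ⁻¹ • (⊤ : Ideal (𝓞 M)) = 1 := by
        intro σ _
        rw [Ideal.one_eq_top, eq_top_iff]
        intro x _
        rw [Ideal.mem_pointwise_smul_iff_inv_smul_mem]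
        trivial
      rw [Ideal.span_singleton_one, Finset.prod_congr rfl h1, Finset.prod_const_one,
        Ideal.one_eq_top]
    · rw [smul_one, mul_one, Ideal.absNorm_top, Nat.cast_one]
  | h₃ x P hx hP ih =>
    have hP' : P.IsPrime := Ideal.isPrime_of_prime hP
    have hP0 : P ≠ ⊥ := hP.ne_zero
    have hpP : (m : 𝓞 M) ∉ P := fun h => hp𝔞 P hP' h Ideal.mul_le_left
    obtain ⟨J₁, h1, h2⟩ := exists_stick_primeM m M b hb hb' P hP' hP0 hpP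
    obtain ⟨J₂, h4, h5⟩ := ih hx fun Q hQ hpQ hle =>
      hp𝔞 Q hQ hpQ (Ideal.mul_le_right.trans hle)
    refine ⟨J₁ * J₂, ?_, ?_⟩
    · rw [← Ideal.span_singleton_mul_span_singleton, h1, h4, ← Finset.prod_mul_distrib]
      refine Finset.prod_congr rfl fun σ _ => ?_
      rw [smul_mul']
    · rw [smul_mul', map_mul, Nat.cast_mul, ← h2, ← h5]
      ring

end H9AB
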