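import Pool.Agent.H9.AB.DefsM

/-!
# Project AB, module ResCharM

The `m`-th power residue character of a finite field `k` with a homomorphism `π : 𝓞 M → k`,
`M = ℚ(ζ_m)`, `m ≠ 0` in `k`, and its Jacobi sums `J(χ⁻¹, χ⁻ᵇ)`, `1 ≤ b ≤ m - 2`.
-/

namespace H9AB

open NumberField

private theorem ResCharM_prim (m : ℕ) [NeZero m] (M : Type*) [Field M] [NumberField M]
    {k : Type*} [Field k] (π : 𝓞 M →+* k)
    (hm : (m : k) ≠ 0) {ζ : 𝓞 M} (hζ : IsPrimitiveRoot ζ m) : IsPrimitiveRoot (π ζ) m := by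
  haveI : NeZero (m : k) := ⟨hm⟩
  have h3 : (Polynomial.cyclotomic m (𝓞 M)).eval ζ = 0 :=
    hζ.isRoot_cyclotomic (Nat.pos_of_ne_zero (NeZero.ne m))
  have h4 := Polynomial.cyclotomic.eval_apply ζ m π
  rw [h3, map_zero] at h4
  rw [← Polynomial.isRoot_cyclotomic_iff]
  exact h4

theorem exists_resCharM (m : ℕ) [NeZero m] (M : Type*) [Field M] [NumberField M]
    [IsCyclotomicExtension {m} ℚ M] {k : Type*} [Field k] [Fintype k] (π : 𝓞 M →+* k)
    (hmk : (m : k) ≠ 0) :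
    m ∣ Fintype.card k - 1 ∧ ∃ χ : MulChar k (𝓞 M), orderOf χ = m ∧
      ∀ x : k, x ≠ 0 → π (χ x) = x ^ ((Fintype.card k - 1) / m) := by
  classical
  have hm0' : m ≠ 0 := NeZero.ne m
  have hmpos : 0 < m := Nat.pos_of_ne_zero hm0'
  obtain ⟨ζ, hζ⟩ : ∃ ζ : 𝓞 M, IsPrimitiveRoot ζ m :=
    ⟨_, (IsCyclotomicExtension.zeta_spec m ℚ M).toInteger_isPrimitiveRoot⟩
  have hπ := ResCharM_prim m M π hmk hζ
  have hcard : Fintype.card kˣ = Fintype.card k - 1 := Fintype.card_units k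
  have hu : IsUnit (π ζ) := hπ.isUnit hm0'
  have hdvd : m ∣ Fintype.card k - 1 := by
    rw [← hcard]
    obtain ⟨w, hw⟩ := hu
    have h1 : orderOf w = m := by
      rw [← orderOf_units, hw]
      exact hπ.eq_orderOf.symm
    rw [← h1]
    exact orderOf_dvd_card
  refine ⟨hdvd, ?_⟩
  set n := (Fintype.card k - 1) / m with hn
  have hpm : m * n = Fintype.card k - 1 := Nat.mul_div_cancel' hdvd
  have hcard1 : 1 < Fintype.card k := Fintype.one_lt_card
  have hn0 : 0 < n := by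
    rcases Nat.eq_zero_or_pos n with h | h
    · rw [h, mul_zero] at hpm
      omega
    · exact h
  obtain ⟨g, hg⟩ := IsCyclic.exists_generator (α := kˣ)
  have hgm : ((g : k) ^ n) ^ m = 1 := by
    rw [← pow_mul, mul_comm, hpm, ← hcard]
    have h1 : g ^ Fintype.card kˣ = 1 := pow_card_eq_one
    rw [← Units.val_pow_eq_pow_val, h1, Units.val_one]
  obtain ⟨j, -, hj⟩ := hπ.eq_pow_of_pow_eq_one hgm
  obtain ⟨z, hz⟩ := hζ.isUnit hm0'
  have hzp : z ^ m = 1 := by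
    ext
    rw [Units.val_pow_eq_pow_val, hz, hζ.pow_eq_one, Units.val_one]
  have hroot : z ^ j ∈ rootsOfUnity (Fintype.card kˣ) (𝓞 M) := by
    rw [mem_rootsOfUnity, hcard, ← hpm, ← pow_mul, show j * (m * n) = m * (j * n) by ring, pow_mul,
      hzp, one_pow]
  let χ : MulChar k (𝓞 M) := MulChar.ofRootOfUnity hroot hg
  have hχg : χ (g : k) = ζ ^ j := by
    have h1 : χ (g : k) = ((z ^ j : (𝓞 M)ˣ) : 𝓞 M) := MulChar.ofRootOfUnity_spec hroot hg
    rw [h1, Units.val_pow_eq_pow_val, hz]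
  have hχ : ∀ x : kˣ, ∃ n : ℕ, (x : k) = (g : k) ^ n ∧ χ (x : k) = ζ ^ (j * n) := by
    intro x
    obtain ⟨n, hn⟩ := (mem_powers_iff_mem_zpowers.2 (hg x))
    have hn' : g ^ n = x := hn
    refine ⟨n, by rw [← hn', Units.val_pow_eq_pow_val], ?_⟩
    rw [← hn', Units.val_pow_eq_pow_val, map_pow, hχg, ← pow_mul]
  have hπχ : ∀ x : k, x ≠ 0 → π (χ x) = x ^ n := by
    intro x hx
    obtain ⟨r, hn1, hn2⟩ := hχ (Units.mk0 x hx)
    rw [Units.val_mk0] at hn1 hn2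
    rw [hn2, hn1, map_pow, pow_mul, hj, ← pow_mul, ← pow_mul, mul_comm]
  refine ⟨χ, ?_, hπχ⟩
  have hχm : χ ^ m = 1 := by
    ext x
    obtain ⟨n, -, hn2⟩ := hχ x
    rw [MulChar.pow_apply_coe, hn2, MulChar.one_apply_coe, ← pow_mul, mul_comm, pow_mul,
      hζ.pow_eq_one, one_pow]
  apply Nat.dvd_antisymm
  · exact orderOf_dvd_of_pow_eq_one hχm
  · set r := orderOf χ with hr
    have h1 : χ ^ r = 1 := pow_orderOf_eq_one χ
    have h2 : χ (g : k) ^ r = 1 := by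
      rw [← MulChar.pow_apply_coe, h1, MulChar.one_apply_coe]
    have h3 := congrArg π h2
    rw [map_pow, hπχ g g.ne_zero, map_one, ← pow_mul] at h3
    have h4 : g ^ (n * r) = 1 := by
      ext
      rw [Units.val_pow_eq_pow_val, h3, Units.val_one]
    have h5 : orderOf g = Fintype.card kˣ := by
      rw [orderOf_eq_card_of_forall_mem_zpowers hg, Nat.card_eq_fintype_card]
    have h6 := orderOf_dvd_of_pow_eq_one h4
    rw [h5, hcard, ← hpm, mul_comm m n] at h6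
    exact Nat.dvd_of_mul_dvd_mul_left hn0 h6

private theorem ResCharM_smul (m : ℕ) [NeZero m] (M : Type*) [Field M] [NumberField M]
    [IsCyclotomicExtension {m} ℚ M] {k : Type*} [Field k] [Fintype k]
    (ψ : MulChar k (𝓞 M)) (hψ : ψ ^ m = 1) (σ : M ≃ₐ[ℚ] M) (hσ : (0 : ℕ) <
      (IsCyclotomicExtension.Rat.galEquivZMod m M σ).val.val) (x : k) :
    σ • ψ x = (ψ ^ (IsCyclotomicExtension.Rat.galEquivZMod m M σ).val.val) x := by
  by_cases hx : x = 0
  · rw [hx, MulChar.map_zero, MulChar.map_zero, smul_zero]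
  · have h1 : ψ x ^ m = 1 := by
      have h2 := congrArg (fun χ : MulChar k (𝓞 M) => χ ((Units.mk0 x hx : kˣ) : k)) hψ
      simp only [MulChar.pow_apply_coe, MulChar.one_apply_coe] at h2
      exact h2
    rw [IsCyclotomicExtension.Rat.galEquivZMod_smul_of_pow_eq m M σ h1]
    have h3 := MulChar.pow_apply_coe ψ (IsCyclotomicExtension.Rat.galEquivZMod m M σ).val.val
      (Units.mk0 x hx)
    exact h3.symm

/-- for `m > 1` the exponent of an automorphism is positive -/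
theorem val_posM (m : ℕ) [NeZero m] (hm : 1 < m) (u : (ZMod m)ˣ) : 0 < (u : ZMod m).val := by
  haveI : Fact (1 < m) := ⟨hm⟩
  refine Nat.pos_of_ne_zero fun h => ?_
  rw [ZMod.val_eq_zero] at h
  exact (Units.ne_zero _) h

theorem smul_jacM (m : ℕ) [NeZero m] (hm : 1 < m) (M : Type*) [Field M] [NumberField M]
    [IsCyclotomicExtension {m} ℚ M] {k : Type*} [Field k] [Fintype k]
    (χ : MulChar k (𝓞 M)) (hχ : χ ^ m = 1) (b : ℕ) (σ : M ≃ₐ[ℚ] M) :
    σ • jacobiSum χ⁻¹ (χ⁻¹ ^ b)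
      = jacobiSum (χ ^ (IsCyclotomicExtension.Rat.galEquivZMod m M σ).val.val)⁻¹
          ((χ ^ (IsCyclotomicExtension.Rat.galEquivZMod m M σ).val.val)⁻¹ ^ b) := by
  have h1 : (χ⁻¹) ^ m = 1 := by rw [inv_pow, hχ, inv_one]
  have h2 : (χ⁻¹ ^ b) ^ m = 1 := by rw [← pow_mul, mul_comm, pow_mul, h1, one_pow]
  have hpos : 0 < (IsCyclotomicExtension.Rat.galEquivZMod m M σ).val.val := val_posM m hm _
  set t := (IsCyclotomicExtension.Rat.galEquivZMod m M σ).val.val with ht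
  have e1 : (χ ^ t)⁻¹ = (χ⁻¹) ^ t := (inv_pow χ t).symm
  have e2 : ((χ ^ t)⁻¹) ^ b = (χ⁻¹ ^ b) ^ t := by
    rw [e1, ← pow_mul, ← pow_mul, mul_comm]
  rw [e2, e1]
  unfold jacobiSum
  rw [Finset.smul_sum]
  refine Finset.sum_congr rfl fun x _ => ?_
  rw [smul_mul', ResCharM_smul m M _ h1 σ hpos, ResCharM_smul m M _ h2 σ hpos]

private theorem ResCharM_cj (m : ℕ) [NeZero m] (M : Type*) [Field M] [NumberField M]
    [IsCyclotomicExtension {m} ℚ M] {k : Type*} [Field k] [Fintype k]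
    (χ : MulChar k (𝓞 M)) (hχ : χ ^ m = 1) :
    (χ ^ (IsCyclotomicExtension.Rat.galEquivZMod m M (cjM m M)).val.val)⁻¹ = χ := by
  have h1 : IsCyclotomicExtension.Rat.galEquivZMod m M (cjM m M) = -1 := by
    unfold cjM
    exact MulEquiv.apply_symm_apply _ _
  rw [h1]
  set t := ((-1 : (ZMod m)ˣ) : ZMod m).val with ht
  have h2 : ((t + 1 : ℕ) : ZMod m) = 0 := by
    push_cast
    rw [ht, ZMod.natCast_zmod_val]
    simp
  obtain ⟨s, hs⟩ := (ZMod.natCast_eq_zero_iff _ _).1 h2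
  have h3 : χ ^ t * χ = 1 := by
    rw [← pow_succ, hs, pow_mul, hχ, one_pow]
  exact inv_eq_of_mul_eq_one_right h3

theorem jac_mul_cjM (m : ℕ) [NeZero m] (M : Type*) [Field M] [NumberField M]
    [IsCyclotomicExtension {m} ℚ M] {k : Type*} [Field k] [Fintype k]
    (χ : MulChar k (𝓞 M)) (hχ : orderOf χ = m) (b : ℕ) (hb : 1 ≤ b) (hb' : b + 2 ≤ m) :
    jacobiSum χ⁻¹ (χ⁻¹ ^ b) * (cjM m M • jacobiSum χ⁻¹ (χ⁻¹ ^ b)) = (Fintype.card k : 𝓞 M) := by
  have hχm : χ ^ m = 1 := by rw [← hχ]; exact pow_orderOf_eq_one χ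
  have hord : orderOf χ⁻¹ = m := by rw [orderOf_inv]; exact hχ
  have hne : ∀ n, 1 ≤ n → n < m → χ⁻¹ ^ n ≠ 1 := by
    intro n hn1 hn2 h
    have h1 := orderOf_dvd_of_pow_eq_one h
    rw [hord] at h1
    have := Nat.le_of_dvd (by omega) h1
    omega
  rw [smul_jacM m (by omega) M χ hχm b, ResCharM_cj m M χ hχm]
  have hinj : Function.Injective (algebraMap (𝓞 M) M) := FaithfulSMul.algebraMap_injective _ _
  apply hinj
  rw [map_mul, ← jacobiSum_ringHomComp, ← jacobiSum_ringHomComp, map_natCast]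
  have hring : ringChar M ≠ ringChar k := by
    rw [ringChar.eq_zero]
    exact (CharP.ringChar_ne_zero_of_finite k).symm
  have e1 : χ.ringHomComp (algebraMap (𝓞 M) M) =
      ((χ⁻¹).ringHomComp (algebraMap (𝓞 M) M))⁻¹ := by
    rw [← MulChar.ringHomComp_inv, inv_inv]
  have e2 : (χ ^ b).ringHomComp (algebraMap (𝓞 M) M) =
      ((χ⁻¹ ^ b).ringHomComp (algebraMap (𝓞 M) M))⁻¹ := by
    rw [MulChar.ringHomComp_inv, inv_pow, inv_inv]
  rw [e1, e2]
  refine jacobiSum_mul_jacobiSum_inv hring ?_ ?_ ?_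
  · have := hne 1 le_rfl (by omega)
    rw [pow_one] at this
    exact (MulChar.ringHomComp_ne_one_iff hinj).2 this
  · exact (MulChar.ringHomComp_ne_one_iff hinj).2 (hne b hb (by omega))
  · rw [← MulChar.ringHomComp_mul, ← pow_succ']
    exact (MulChar.ringHomComp_ne_one_iff hinj).2 (hne (b + 1) (by omega) (by omega))

end H9AB
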