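import Pool.Agent.H9.AB.RelA

/-!
# Project AB, module RelG: the twisted relations for an arbitrary element of `ℚ(ζ_(fp))`

* `red_eval`: the reduction of a value `P((ζ^f)^n)`, `P ∈ R[X]`, `ι : R → ℤ[ζ^p]`, at a place `e`.
* `rel_gen`: the relations of the sets `T_b` for `A ∈ 𝓞 M` prime to `p` with `(A) = I^p`.
* `kummer_gen`: their Fourier transform.
-/

namespace H9AB

open Polynomial NumberField H9FC H45KC
open scoped Pointwise

section red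

variable {p f m : ℕ} {M : Type*} [Field M] [NumberField M] {k : Type*} [Field k]
variable [Fact p.Prime] [CharP k p] (hpf : ¬ p ∣ f) [NeZero m] (hm : m = f * p)
    [IsCyclotomicExtension {m} ℚ M] {ζ : 𝓞 M} (hζ : IsPrimitiveRoot ζ m)

include hpf hm hζ

theorem red_eval (e : 𝓞 M →+* k) {R : Type*} [CommRing R]
    (ι : R →+* 𝓞 M) (hι : ∀ r, ι r ∈ Algebra.adjoin ℤ {ζ ^ p}) (n : ℕ) (P : R[X]) (G : ℤ[X])
    (hG : H71AB.iv ζ G = P.eval₂ ι ((ζ ^ f) ^ n)) :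
    (X - 1 : k[X]) ^ (p - 1) ∣ H71AB.iv (C (e ζ) * X : k[X]) G -
      (P.map (e.comp ι)).comp (X ^ (f * n)) := by
  have hp : p.Prime := Fact.out
  have hgf : e ζ ^ f = 1 := by
    have h1 : (e ζ ^ f) ^ p = 1 := by
      rw [← pow_mul, ← hm, ← map_pow, hζ.pow_eq_one, map_one]
    have h2 : (e ζ ^ f - 1) ^ p = 0 := by
      rw [sub_pow_char, h1, one_pow, sub_self]
    exact sub_eq_zero.1 (eq_zero_of_pow_eq_zero h2)
  have key : ∀ P : R[X], ∃ F : ℤ[X], H71AB.iv ζ F = P.eval₂ ι ((ζ ^ f) ^ n) ∧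
      (X - 1 : k[X]) ^ (p - 1) ∣ H71AB.iv (C (e ζ) * X : k[X]) F -
        (P.map (e.comp ι)).comp (X ^ (f * n)) := by
    intro P
    induction P using Polynomial.induction_on' with
    | add P Q hP hQ =>
      obtain ⟨F, hF1, hF2⟩ := hP
      obtain ⟨G, hG1, hG2⟩ := hQ
      refine ⟨F + G, by rw [map_add, hF1, hG1, eval₂_add], ?_⟩
      have h := dvd_add hF2 hG2
      rw [Polynomial.map_add, add_comp, map_add]
      convert h using 1
      ring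
    | monomial r c =>
      refine ⟨H71AB.rp ζ (ι c) * X ^ (f * n * r), ?_, ?_⟩
      · rw [map_mul, map_pow, H71AB.iv_X, H71AB.rp_spec hζ, eval₂_monomial, ← pow_mul, ← pow_mul,
          mul_assoc]
      · rw [map_mul, map_pow, H71AB.iv_X, map_monomial, ← C_mul_X_pow_eq_monomial, mul_comp, C_comp,
          X_pow_comp, mul_pow, ← C_pow, mul_assoc f n r, pow_mul (e ζ), hgf, one_pow, C_1, one_mul,
          ← mul_assoc f n r, pow_mul X (f * n), ← sub_mul]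
        exact (H71AB.gX_const hpf hm hζ e (ι c) (hι c)).mul_right _
  obtain ⟨F, hF1, hF2⟩ := key P
  have h1 := H71AB.gX_sub hpf hm hζ e G F (by rw [hG, hF1])
  have h2 := dvd_add h1 hF2
  rwa [sub_add_sub_cancel] at h2

end red

section

variable (f p : ℕ) [NeZero f] [NeZero (f * p)] (M : Type*) [Field M] [NumberField M]
    [IsCyclotomicExtension {f * p} ℚ M]

theorem rel_gen [hp : Fact p.Prime] (hp2 : p ≠ 2) (hpf : ¬ p ∣ f) {ζ : 𝓞 M}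
    (hζ : IsPrimitiveRoot ζ (f * p)) (A : 𝓞 M)
    (hA : ∀ P : Ideal (𝓞 M), P.IsPrime → (p : 𝓞 M) ∈ P → A ∉ P) (I : Ideal (𝓞 M))
    (hI : I ^ p = Ideal.span {A})
    {Ω : Type*} [Field Ω] [CharP Ω p] (e : 𝓞 M →+* Ω) (j : ℕ) (hj : 2 ≤ j) (hj' : j + 2 ≤ p)
    (Y : (ZMod f)ˣ → Ω)
    (hY : ∀ σ : M ≃ₐ[ℚ] M, H71AB.Lg ζ (e.comp (H71AB.act σ)) j A =
      Y (ZMod.unitsMap (dvd_mul_right f p) (IsCyclotomicExtension.Rat.galEquivZMod (f * p) M σ)))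
    (β : ℕ) (hβ : 1 ≤ β) (hβ' : β + 2 ≤ f * p) (g : (ZMod f)ˣ) :
    ∑ t : (ZMod (f * p))ˣ, (if f * p < t.val.val + (β * t.val.val) % (f * p) then
        ((t.val.val : Ω)⁻¹) ^ j * Y (g * (ZMod.unitsMap (dvd_mul_right f p) t)⁻¹) else 0) = 0 := by
  classical
  have hpp : p.Prime := hp.out
  have hm1 : 1 < f * p := by omega
  have hm1' : Fact (1 < f * p) := ⟨hm1⟩
  have hζp : IsPrimitiveRoot (ζ ^ f) p := hζ.pow (NeZero.pos _) rfl
  have hpm2 : ¬ p ^ 2 ∣ f * p := by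
    rw [pow_two]
    intro h1
    exact hpf (Nat.dvd_of_mul_dvd_mul_right hpp.pos h1)
  obtain ⟨J, Z, k, hJ, hZ, hrel⟩ := H66AB.stick_pow (f * p) p hpp hp2 (dvd_mul_left p f) hpm2 M
    hζp A hA I hI β hβ hβ'
  obtain ⟨u, hu⟩ := ZMod.unitsMap_surjective (dvd_mul_right f p) g
  set τ : M ≃ₐ[ℚ] M := (IsCyclotomicExtension.Rat.galEquivZMod (f * p) M).symm u with hτ
  have hτu : IsCyclotomicExtension.Rat.galEquivZMod (f * p) M τ = u := by
    rw [hτ, MulEquiv.apply_symm_apply]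
  have hmain := H71AB.rel_stick hpf rfl hζ (e.comp (H71AB.act τ)) (TM (f * p) M β) A J Z hA hJ hZ
    (f * k) (by rw [hrel, pow_mul]) j hj hj'
  have hLg : ∀ σ : M ≃ₐ[ℚ] M,
      H71AB.Lg ζ ((e.comp (H71AB.act τ)).comp (H71AB.act σ⁻¹)) j A =
        Y (g * (ZMod.unitsMap (dvd_mul_right f p)
          (IsCyclotomicExtension.Rat.galEquivZMod (f * p) M σ))⁻¹) := by
    intro σ
    have h1 : (e.comp (H71AB.act τ)).comp (H71AB.act σ⁻¹) = e.comp (H71AB.act (τ * σ⁻¹)) := by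
      ext x
      show e (τ • (σ⁻¹ • x)) = e ((τ * σ⁻¹) • x)
      rw [mul_smul]
    rw [h1, hY, map_mul, map_inv, hτu, map_mul, hu, map_inv]
  have hcoef : ∀ t : (ZMod (f * p))ˣ, ((t⁻¹.val.val : ℕ) : Ω) = (t.val.val : Ω)⁻¹ := by
    intro t
    have h1 := H99AB.cast_val_mul (k := Ω) (p := p) (dvd_mul_left p f) t⁻¹ t
    rw [inv_mul_cancel, Units.val_one, ZMod.val_one, Nat.cast_one] at h1
    exact eq_inv_of_mul_eq_one_left h1.symm
  rw [← Finset.sum_filter]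
  refine Eq.trans ?_ hmain
  symm
  refine Finset.sum_bij (fun σ _ => IsCyclotomicExtension.Rat.galEquivZMod (f * p) M σ) ?_ ?_ ?_ ?_
  · intro σ hσ
    rw [Finset.mem_filter]
    exact ⟨Finset.mem_univ _, (mem_TM (f * p) M β σ).1 hσ⟩
  · intro σ _ σ' _ hh
    exact (IsCyclotomicExtension.Rat.galEquivZMod (f * p) M).injective hh
  · intro t ht
    rw [Finset.mem_filter] at ht
    refine ⟨(IsCyclotomicExtension.Rat.galEquivZMod (f * p) M).symm t, ?_, ?_⟩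
    · rw [mem_TM, MulEquiv.apply_symm_apply]
      exact ht.2
    · rw [MulEquiv.apply_symm_apply]
  · intro σ _
    rw [hLg, hcoef]

theorem kummer_gen [hp : Fact p.Prime] (hp2 : p ≠ 2) (hpf : ¬ p ∣ f) {ζ : 𝓞 M}
    (hζ : IsPrimitiveRoot ζ (f * p)) (A : 𝓞 M)
    (hA : ∀ P : Ideal (𝓞 M), P.IsPrime → (p : 𝓞 M) ∈ P → A ∉ P) (I : Ideal (𝓞 M))
    (hI : I ^ p = Ideal.span {A})
    {Ω : Type*} [Field Ω] [CharP Ω p] (e : 𝓞 M →+* Ω) (j : ℕ) (hj : 2 ≤ j) (hj' : j + 2 ≤ p)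
    (Y : (ZMod f)ˣ → Ω)
    (hY : ∀ σ : M ≃ₐ[ℚ] M, H71AB.Lg ζ (e.comp (H71AB.act σ)) j A =
      Y (ZMod.unitsMap (dvd_mul_right f p) (IsCyclotomicExtension.Rat.galEquivZMod (f * p) M σ)))
    (c₀ : ℕ) (hc₀ : 1 ≤ c₀) (hc₀' : c₀ < f * p) (χ : (ZMod f)ˣ →* Ωˣ) :
    H99AB.beta Ω f p c₀ j χ = 0 ∨ ∑ g : (ZMod f)ˣ, (χ g : Ω) * Y g = 0 := by
  classical
  exact H99AB.fourier_rel (k := Ω) (f := f) (p := p) c₀ j hc₀ hc₀' Y
    (fun β hβ hβ' g => rel_gen f p M hp2 hpf hζ A hA I hI e j hj hj' Y hY β hβ (by omega) g) χ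

end

end H9AB
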