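import Pool.Agent.H9.FC.OrdA
import Pool.Agent.H9.FC.OrdX
import Pool.Agent.H9.FC.Desc
import Pool.Agent.H9.AB.RelNorm

/-!
# Project AB, module RelPow

For a first case solution `(a, b, c)` over `K ⊇ L` (only: `c` is prime to `p`), `P = nfR L K a b` and a
primitive `p`-th root of unity `ζ ∈ M ⊇ L`, the element `A = P(ζ) P(1)^(p-1)` of `𝓞 M` is prime to `p`
and its ideal is a `p`-th power.

PROOF. Take `N ⊇ M` with `[K:L]` homomorphisms `σ : K → N` over `L` and `p ∤ [N:M]`.  The image of `A` in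
`𝓞 N` is the product of the `(σ a + ζ σ b)(σ a + σ b)^(p-1)`.  For a prime `Q` of `𝓞 N`, `p ∉ Q`, all
`v_Q(σ a + μ σ b)`, `μ^p = 1`, are congruent modulo `p`; for `p ∈ Q` the factors are not in `Q`:
`ζ ≡ 1` and `(σ a + σ b)^p ≡ - (σ c)^p` modulo `Q`.  So all exponents of `A 𝓞_N` are divisible by `p`; descend.
-/

namespace H9AB

open Polynomial NumberField H9FC

universe u v w

private theorem RelPow_ne {R : Type*} [CommRing R] [IsDomain R] (p : ℕ) [Fact p.Prime]
    (hp : p ≠ 2) {ζ : R} (hζ : ζ ^ p = 1) {α β γ : R} (h : α ^ p + β ^ p = γ ^ p)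
    (hγ0 : γ ≠ 0) : α + ζ * β ≠ 0 := by
  intro h0
  have hodd : Odd p := Nat.Prime.odd_of_ne_two Fact.out hp
  have hα : α = -(ζ * β) := eq_neg_of_add_eq_zero_left h0
  rw [hα, hodd.neg_pow, mul_pow, hζ, one_mul, neg_add_cancel] at h
  exact hγ0 ((pow_eq_zero_iff (Nat.Prime.ne_zero Fact.out)).1 h.symm)

private theorem RelPow_root {R : Type*} [CommRing R] (p : ℕ) [Fact p.Prime] {μ ν : R}
    (hμ : μ ^ p = 1) (hν : ν ^ p = 1) (P : Ideal R) (hP : P.IsPrime) (hpP : (p : R) ∉ P)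
    [IsDomain R] (hne : μ ≠ ν) : μ - ν ∉ P := by
  intro hmem
  have hp0 : p ≠ 0 := Nat.Prime.ne_zero Fact.out
  have h1 : (∑ i ∈ Finset.range p, μ ^ i * ν ^ (p - 1 - i)) = 0 := by
    have h2 := geom_sum₂_mul μ ν p
    rw [hμ, hν, sub_self] at h2
    exact (mul_eq_zero.1 h2).resolve_right (sub_ne_zero.2 hne)
  have h3 : Ideal.Quotient.mk P μ = Ideal.Quotient.mk P ν := Ideal.Quotient.eq.2 hmem
  have h4 := congrArg (Ideal.Quotient.mk P) h1
  rw [map_sum, map_zero] at h4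
  have h5 : ∑ i ∈ Finset.range p, Ideal.Quotient.mk P (μ ^ i * ν ^ (p - 1 - i)) =
      ∑ i ∈ Finset.range p, Ideal.Quotient.mk P ν ^ (p - 1) := by
    refine Finset.sum_congr rfl fun i hi => ?_
    have hi' : i < p := Finset.mem_range.1 hi
    rw [map_mul, map_pow, map_pow, h3, ← pow_add]
    congr 1
    omega
  rw [h5, Finset.sum_const, Finset.card_range, nsmul_eq_mul] at h4
  have h6 : (Ideal.Quotient.mk P) ((p : R) * ν ^ (p - 1)) = 0 := by
    rw [map_mul, map_natCast, map_pow]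
    exact h4
  rw [Ideal.Quotient.eq_zero_iff_mem] at h6
  rcases hP.mem_or_mem h6 with h7 | h7
  · exact hpP h7
  · have h8 : ν ∈ P := hP.mem_of_pow_mem _ h7
    have h9 : ν ^ p ∈ P := Ideal.pow_mem_of_mem P h8 p (Nat.pos_of_ne_zero hp0)
    rw [hν] at h9
    exact hP.ne_top ((Ideal.eq_top_iff_one P).2 h9)

private theorem RelPow_ord {R : Type*} [CommRing R] [IsDedekindDomain R] (p : ℕ) [Fact p.Prime]
    (hp : p ≠ 2) {ζ : R} (hζ : IsPrimitiveRoot ζ p) {α β γ : R} (h : α ^ p + β ^ p = γ ^ p)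
    (hγ0 : γ ≠ 0) (P : Ideal R) (hP : P.IsPrime) (hP0 : P ≠ ⊥) (hpP : (p : R) ∉ P) :
    ∃ m : ℕ, ∀ μ : R, μ ^ p = 1 → ((ordI P (Ideal.span {α + μ * β}) : ℕ) : ZMod p) = m := by
  have hodd : Odd p := Nat.Prime.odd_of_ne_two Fact.out hp
  have hpos : 0 < p := Nat.Prime.pos Fact.out
  set v : R → ℕ := fun x => ordI P (Ideal.span {x}) with hv
  have hx0 : ∀ μ : R, μ ^ p = 1 → α + μ * β ≠ 0 := fun μ hμ => RelPow_ne p hp hμ h hγ0
  have hvle : ∀ x : R, x ≠ 0 → ∀ n : ℕ, n ≤ v x ↔ x ∈ P ^ n := by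
    intro x hx n
    rw [hv]
    show n ≤ ordI P (Ideal.span {x}) ↔ x ∈ P ^ n
    rw [le_ordI_iff P _ hP hP0 (by rwa [Ne, Ideal.span_singleton_eq_bot]),
      Ideal.span_singleton_le_iff_mem]
  set I : Ideal R := Ideal.span {α} ⊔ Ideal.span {β} with hI
  have hI0 : I ≠ ⊥ := by
    intro h0
    rw [hI, sup_eq_bot_iff, Ideal.span_singleton_eq_bot, Ideal.span_singleton_eq_bot] at h0
    rw [h0.1, h0.2, zero_pow hpos.ne', zero_add] at h
    exact hγ0 ((pow_eq_zero_iff hpos.ne').1 h.symm)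
  set m : ℕ := ordI P I with hm
  have hmle : ∀ n : ℕ, n ≤ m ↔ (α ∈ P ^ n ∧ β ∈ P ^ n) := by
    intro n
    rw [hm, le_ordI_iff P I hP hP0 hI0, hI, sup_le_iff, Ideal.span_singleton_le_iff_mem,
      Ideal.span_singleton_le_iff_mem]
  have hge : ∀ μ : R, μ ^ p = 1 → m ≤ v (α + μ * β) := by
    intro μ hμ
    rw [hvle _ (hx0 μ hμ)]
    obtain ⟨h1, h2⟩ := (hmle m).1 le_rfl
    exact Ideal.add_mem _ h1 (Ideal.mul_mem_left _ _ h2)
  have hone : ∀ μ ν : R, μ ^ p = 1 → ν ^ p = 1 → μ ≠ ν → m < v (α + μ * β) →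
      v (α + ν * β) = m := by
    intro μ ν hμ hν hne hlt
    by_contra hc
    have hlt' : m < v (α + ν * β) := lt_of_le_of_ne (hge ν hν) (Ne.symm hc)
    have h1 : α + μ * β ∈ P ^ (m + 1) := (hvle _ (hx0 μ hμ) _).1 hlt
    have h2 : α + ν * β ∈ P ^ (m + 1) := (hvle _ (hx0 ν hν) _).1 hlt'
    have hr := RelPow_root p hμ hν P hP hpP hne
    have h3 : (μ - ν) * β ∈ P ^ (m + 1) := by
      have e : (μ - ν) * β = (α + μ * β) - (α + ν * β) := by ring
      rw [e]
      exact Ideal.sub_mem _ h1 h2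
    have h4 : (μ - ν) * α ∈ P ^ (m + 1) := by
      have e : (μ - ν) * α = μ * (α + ν * β) - ν * (α + μ * β) := by ring
      rw [e]
      exact Ideal.sub_mem _ (Ideal.mul_mem_left _ _ h2) (Ideal.mul_mem_left _ _ h1)
    have h5 : m + 1 ≤ m := (hmle _).2
      ⟨(hP.mul_mem_pow _ h4).resolve_left hr, (hP.mul_mem_pow _ h3).resolve_left hr⟩
    omega
  refine ⟨m, fun μ hμ => ?_⟩
  show ((v (α + μ * β) : ℕ) : ZMod p) = m
  by_cases hlt : m < v (α + μ * β)
  · have hprod := hζ.pow_add_pow_eq_prod_add_mul α β hodd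
    rw [h] at hprod
    have hmemr : ∀ ν : R, ν ∈ Polynomial.nthRootsFinset p (1 : R) ↔ ν ^ p = 1 := fun ν => by
      rw [Polynomial.mem_nthRootsFinset hpos]
    have hsum : p * v γ = ∑ ν ∈ Polynomial.nthRootsFinset p (1 : R), v (α + ν * β) := by
      have h1 : v (γ ^ p) = p * v γ := by
        rw [hv]
        show ordI P (Ideal.span {γ ^ p}) = p * ordI P (Ideal.span {γ})
        rw [← Ideal.span_singleton_pow, ordI_pow]
      rw [← h1, hprod, hv]
      show ordI P (Ideal.span {∏ ν ∈ Polynomial.nthRootsFinset p (1 : R), (α + ν * β)}) = _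
      rw [← Ideal.prod_span_singleton, ordI_prod]
      intro ν hν
      rw [Ne, Ideal.span_singleton_eq_bot]
      exact hx0 ν ((hmemr ν).1 hν)
    classical
    have hμm := (hmemr μ).2 hμ
    rw [← Finset.add_sum_erase _ _ hμm] at hsum
    have h2 : ∑ ν ∈ (Polynomial.nthRootsFinset p (1 : R)).erase μ, v (α + ν * β) =
        (p - 1) * m := by
      rw [Finset.sum_congr rfl (fun ν hν => hone μ ν hμ
        ((hmemr ν).1 (Finset.mem_of_mem_erase hν)) (Finset.ne_of_mem_erase hν).symm hlt),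
        Finset.sum_const, Finset.card_erase_of_mem hμm, hζ.card_nthRootsFinset, smul_eq_mul]
    rw [h2] at hsum
    have h3 := congrArg (fun n : ℕ => (n : ZMod p)) hsum
    simp only [Nat.cast_mul, Nat.cast_add, CharP.cast_eq_zero, zero_mul] at h3
    rw [Nat.cast_sub (show 1 ≤ p from hpos), ZMod.natCast_self, Nat.cast_one] at h3
    linear_combination -h3
  · have h1 := hge μ hμ
    have h2 : v (α + μ * β) = m := by omega
    rw [h2]


theorem ord_one {R : Type*} [CommRing R] [IsDedekindDomain R] (p : ℕ) [Fact p.Prime]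
    (hp : p ≠ 2) {ζ : R} (hζ : IsPrimitiveRoot ζ p) {α β γ : R} (h : α ^ p + β ^ p = γ ^ p)
    (hγ0 : γ ≠ 0) (P : Ideal R) (hP : P.IsPrime) (hP0 : P ≠ ⊥) (hpP : (p : R) ∉ P) :
    p ∣ ordI P (Ideal.span {(α + ζ * β) * (α + β) ^ (p - 1)}) := by
  obtain ⟨m, hm⟩ := RelPow_ord p hp hζ h hγ0 P hP hP0 hpP
  have hpos : 0 < p := Nat.Prime.pos Fact.out
  have hz1 : ζ ^ p = 1 := hζ.pow_eq_one
  have hb : ∀ μ : R, μ ^ p = 1 → Ideal.span {α + μ * β} ≠ ⊥ := by
    intro μ hμ
    rw [Ne, Ideal.span_singleton_eq_bot]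
    exact RelPow_ne p hp hμ h hγ0
  have h1 := hm 1 (one_pow p)
  have hb1 := hb 1 (one_pow p)
  rw [one_mul] at h1 hb1
  rw [← Ideal.span_singleton_mul_span_singleton, ← Ideal.span_singleton_pow,
    ordI_mul P _ _ (hb ζ hz1) (pow_ne_zero _ hb1), ordI_pow,
    ← ZMod.natCast_eq_zero_iff, Nat.cast_add, Nat.cast_mul, hm ζ hz1, h1,
    Nat.cast_sub (show 1 ≤ p from hpos), ZMod.natCast_self, Nat.cast_one]
  ring

private theorem RelPow_env (L : Type u) [Field L] [NumberField L] (K : Type v) [Field K]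
    [NumberField K] [Algebra L K] (p : ℕ) [Fact p.Prime]
    (hd : Module.finrank L K < p) (M : Type w) [Field M] [NumberField M] [Algebra L M] (f : L[X])
    (pb : PowerBasis L K) (hf : f = minpoly L pb.gen)
    (N : Type w) [Field N] [NumberField N] [Algebra M N] [Algebra L N] [IsScalarTower L M N]
    [Polynomial.IsSplittingField M N (f.map (algebraMap L M))] :
    ¬ p ∣ Module.finrank M N ∧ Fintype.card (K →ₐ[L] N) = Module.finrank L K := by
  classical
  set g := f.map (algebraMap L M) with hg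
  have hfirr : Irreducible f := by rw [hf]; exact minpoly.irreducible (Algebra.IsIntegral.isIntegral _)
  have hfsep : f.Separable := hfirr.separable
  have hgsep : g.Separable := hfsep.map
  have hspl : (g.map (algebraMap M N)).Splits := Polynomial.IsSplittingField.splits N g
  have hdeg : g.natDegree = Module.finrank L K := by
    rw [hg, natDegree_map, hf, pb.natDegree_minpoly, pb.finrank]
  constructor
  · have h1 : Module.finrank M N = Nat.card g.Gal := by
      rw [Polynomial.Gal.card_of_separable hgsep]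
      exact (Polynomial.IsSplittingField.algEquiv N g).toLinearEquiv.finrank_eq
    have hfact : Fact ((g.map (algebraMap M N)).Splits) := ⟨hspl⟩
    have h2 : Nat.card g.Gal ∣ Nat.card (Equiv.Perm (g.rootSet N)) :=
      Subgroup.card_dvd_of_injective (Polynomial.Gal.galActionHom g N)
        (Polynomial.Gal.galActionHom_injective g N)
    have h3 : Nat.card (Equiv.Perm (g.rootSet N)) = (Fintype.card (g.rootSet N)).factorial := by
      rw [Nat.card_eq_fintype_card, Fintype.card_perm]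
    have h4 : Fintype.card (g.rootSet N) = Module.finrank L K := by
      rw [← hdeg]
      exact card_rootSet_eq_natDegree hgsep hspl
    intro hp
    rw [h1] at hp
    have h5 := hp.trans h2
    rw [h3, h4, (Fact.out : p.Prime).dvd_factorial] at h5
    omega
  · have h6 : ((minpoly L pb.gen).map (algebraMap L N)).Splits := by
      have h7 : (minpoly L pb.gen).map (algebraMap L N) = g.map (algebraMap M N) := by
        rw [← hf, hg, Polynomial.map_map]
        congr 1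
        exact IsScalarTower.algebraMap_eq L M N
      rw [h7]
      exact hspl
    rw [Fintype.card_eq_nat_card, AlgHom.natCard_of_powerBasis pb
      (by rw [IsSeparable, ← hf]; exact hfsep) h6, pb.finrank]

/-- a number field `N ⊇ M ⊇ L` with all the `L`-conjugates of `K` and `p ∤ [N : M]` -/
theorem exists_relEnv (L : Type u) [Field L] [NumberField L] (K : Type v) [Field K]
    [NumberField K] [Algebra L K] (p : ℕ) [Fact p.Prime]
    (hd : Module.finrank L K < p) (M : Type w) [Field M] [NumberField M] [Algebra L M] :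
    ∃ (N : Type w) (_ : Field N) (_ : NumberField N) (_ : Algebra M N) (_ : Algebra L N),
      IsScalarTower L M N ∧
      ¬ p ∣ Module.finrank M N ∧ Fintype.card (K →ₐ[L] N) = Module.finrank L K := by
  classical
  let pb := Field.powerBasisOfFiniteOfSeparable L K
  let f := minpoly L pb.gen
  let N := (f.map (algebraMap L M)).SplittingField
  have : CharZero N := charZero_of_injective_algebraMap (algebraMap M N).injective
  have : Module.Finite M N := Polynomial.IsSplittingField.finiteDimensional N (f.map (algebraMap L M))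
  have hN : NumberField N := by
    refine { to_charZero := inferInstance, to_finiteDimensional := ?_ }
    have : IsScalarTower ℚ M N := by
      refine IsScalarTower.of_algebraMap_eq' ?_
      exact Subsingleton.elim _ _
    exact Module.Finite.trans M N
  have hT : IsScalarTower L M N := inferInstance
  have h := RelPow_env L K p hd M f pb rfl N
  exact ⟨N, inferInstance, hN, inferInstance, inferInstance, hT, h⟩


private theorem RelPow_zeta {R : Type*} [CommRing R] (p : ℕ) [Fact p.Prime] (Q : Ideal R)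
    (hQ : Q.IsPrime) (hpQ : (p : R) ∈ Q) (z : R) (hz : z ^ p = 1) : z - 1 ∈ Q := by
  have hchar : CharP (R ⧸ Q) p := by
    have h1 : ((p : ℕ) : R ⧸ Q) = 0 := by
      have : ((p : ℕ) : R ⧸ Q) = Ideal.Quotient.mk Q (p : R) := by simp
      rw [this, Ideal.Quotient.eq_zero_iff_mem]
      exact hpQ
    have : Nontrivial (R ⧸ Q) := Ideal.Quotient.nontrivial_iff.2 hQ.ne_top
    obtain ⟨r, hr⟩ := CharP.exists (R ⧸ Q)
    have h2 : r ∣ p := (CharP.cast_eq_zero_iff (R ⧸ Q) r p).1 h1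
    rcases (Nat.dvd_prime (Fact.out : p.Prime)).1 h2 with h3 | h3
    · exfalso
      rw [h3] at hr
      exact CharP.ringChar_ne_one (R := R ⧸ Q) (CharP.eq _ (ringChar.charP _) hr)
    · rw [← h3]
      exact hr
  have hdom : IsDomain (R ⧸ Q) := Ideal.Quotient.isDomain Q
  rw [← Ideal.Quotient.eq_zero_iff_mem, map_sub, map_one]
  have h1 : (Ideal.Quotient.mk Q z - 1) ^ p = 0 := by
    rw [sub_pow_char, ← map_pow, hz, map_one, one_pow, sub_self]
  exact pow_eq_zero_iff (Fact.out : p.Prime).ne_zero |>.1 h1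

theorem exists_pow_idealR (L : Type u) [Field L] [NumberField L] (K : Type v) [Field K]
    [NumberField K] [Algebra L K] (p : ℕ) [Fact p.Prime]
    (hp : p ≠ 2) (hd : Module.finrank L K < p) (a b c : 𝓞 K) (h : FSol K p a b c)
    (hc : ∀ P : Ideal (𝓞 K), P.IsPrime → (p : 𝓞 K) ∈ P → c ∉ P)
    (M : Type w) [Field M] [NumberField M] [Algebra L M] {ζ : 𝓞 M} (hζ : IsPrimitiveRoot ζ p) :
    (∀ P : Ideal (𝓞 M), P.IsPrime → (p : 𝓞 M) ∈ P →
      (nfR L K a b).eval₂ (algebraMap (𝓞 L) (𝓞 M)) ζ *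
        ((nfR L K a b).eval₂ (algebraMap (𝓞 L) (𝓞 M)) 1) ^ (p - 1) ∉ P) ∧
    ∃ I : Ideal (𝓞 M), I ^ p = Ideal.span {(nfR L K a b).eval₂ (algebraMap (𝓞 L) (𝓞 M)) ζ *
        ((nfR L K a b).eval₂ (algebraMap (𝓞 L) (𝓞 M)) 1) ^ (p - 1)} := by
  classical
  have hpp : p.Prime := Fact.out
  have hodd : Odd p := hpp.odd_of_ne_two hp
  obtain ⟨N, _, _, _, _, hT, hN, hcard⟩ := exists_relEnv L K p hd M
  obtain ⟨ha, hb, hc0, habc⟩ := h
  set F := nfR L K a b with hF
  set Z : 𝓞 N := algebraMap (𝓞 M) (𝓞 N) ζ with hZ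
  have hinj : Function.Injective (algebraMap (𝓞 M) (𝓞 N)) :=
    FaithfulSMul.algebraMap_injective (𝓞 M) (𝓞 N)
  have hZp : IsPrimitiveRoot Z p := hζ.map_of_injective hinj
  set α : (K →ₐ[L] N) → 𝓞 N := fun σ => RingOfIntegers.mapRingHom (σ : K →+* N) a with hα
  set β : (K →ₐ[L] N) → 𝓞 N := fun σ => RingOfIntegers.mapRingHom (σ : K →+* N) b with hβ
  set γ : (K →ₐ[L] N) → 𝓞 N := fun σ => - RingOfIntegers.mapRingHom (σ : K →+* N) c with hγ
  have hfer : ∀ σ, α σ ^ p + β σ ^ p = γ σ ^ p := by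
    intro σ
    have h1 := congrArg (RingOfIntegers.mapRingHom (σ : K →+* N)) habc
    rw [map_add, map_add, map_pow, map_pow, map_pow, map_zero] at h1
    rw [hγ]
    change α σ ^ p + β σ ^ p = (- RingOfIntegers.mapRingHom (σ : K →+* N) c) ^ p
    rw [hodd.neg_pow]
    exact eq_neg_of_add_eq_zero_left h1
  have hγ0 : ∀ σ, γ σ ≠ 0 := by
    intro σ h1
    have h2 : RingOfIntegers.mapRingHom (σ : K →+* N) c = 0 := neg_eq_zero.1 h1
    have h3 : (σ : K →+* N) (c : K) = 0 := by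
      have := congrArg (fun t : 𝓞 N => (t : N)) h2
      exact this
    have h4 : (c : K) = 0 := (map_eq_zero _).1 h3
    exact hc0 (RingOfIntegers.coe_injective (h4.trans (map_zero (algebraMap (𝓞 K) K)).symm))
  have hmapT : ∀ z : 𝓞 M, algebraMap (𝓞 M) (𝓞 N) (F.eval₂ (algebraMap (𝓞 L) (𝓞 M)) z) =
      ∏ σ, (α σ + algebraMap (𝓞 M) (𝓞 N) z * β σ) := by
    intro z
    rw [Polynomial.hom_eval₂]
    have h1 : (algebraMap (𝓞 M) (𝓞 N)).comp (algebraMap (𝓞 L) (𝓞 M)) =
        algebraMap (𝓞 L) (𝓞 N) := by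
      ext x
      show algebraMap M N (algebraMap L M (x : L)) = algebraMap L N (x : L)
      exact (IsScalarTower.algebraMap_apply L M N _).symm
    rw [h1, hF, nfR_eval_prod L K N hcard]
  set x : 𝓞 M := F.eval₂ (algebraMap (𝓞 L) (𝓞 M)) ζ *
    (F.eval₂ (algebraMap (𝓞 L) (𝓞 M)) 1) ^ (p - 1) with hx
  have hxN : algebraMap (𝓞 M) (𝓞 N) x =
      ∏ σ, ((α σ + Z * β σ) * (α σ + β σ) ^ (p - 1)) := by
    rw [hx, map_mul, map_pow, hmapT, hmapT, map_one, Finset.prod_mul_distrib, Finset.prod_pow]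
    simp only [one_mul]
    rfl
  have hf1 : ∀ σ, α σ + Z * β σ ≠ 0 := fun σ => RelPow_ne p hp hZp.pow_eq_one (hfer σ) (hγ0 σ)
  have hf2 : ∀ σ, α σ + β σ ≠ 0 := fun σ => by
    have h1 := RelPow_ne p hp (one_pow p) (hfer σ) (hγ0 σ)
    rwa [one_mul] at h1
  have hfac1 : ∀ σ, (α σ + Z * β σ) * (α σ + β σ) ^ (p - 1) ≠ 0 := fun σ =>
    mul_ne_zero (hf1 σ) (pow_ne_zero _ (hf2 σ))
  -- factors above `p`
  have habove : ∀ Q : Ideal (𝓞 N), Q.IsPrime → (p : 𝓞 N) ∈ Q →
      algebraMap (𝓞 M) (𝓞 N) x ∉ Q := by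
    intro Q hQ hpQ hmem
    have hab : ∀ σ, α σ + β σ ∉ Q := by
      intro σ h1
      have h2 : γ σ ^ p ∈ Q := by
        have h3 : (α σ + β σ) ^ p ∈ Q := Ideal.pow_mem_of_mem Q h1 p hpp.pos
        obtain ⟨r, hr⟩ := exists_add_pow_prime_eq hpp (α σ) (β σ)
        rw [← hfer σ]
        have h4 : α σ ^ p + β σ ^ p = (α σ + β σ) ^ p - p * α σ * β σ * r := by rw [hr]; ring
        rw [h4]
        refine Ideal.sub_mem _ h3 ?_
        rw [mul_assoc, mul_assoc]
        exact Ideal.mul_mem_right _ _ hpQ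
      have h3 : γ σ ∈ Q := hQ.mem_of_pow_mem _ h2
      have h4 : RingOfIntegers.mapRingHom (σ : K →+* N) c ∈ Q := by
        have := Q.neg_mem h3
        rwa [hγ, neg_neg] at this
      refine hc (Q.comap (RingOfIntegers.mapRingHom (σ : K →+* N))) (Ideal.comap_isPrime _ _) ?_ ?_
      · rw [Ideal.mem_comap, map_natCast]
        exact hpQ
      · rw [Ideal.mem_comap]
        exact h4
    have hz := RelPow_zeta p Q hQ hpQ Z hZp.pow_eq_one
    have hab' : ∀ σ, α σ + Z * β σ ∉ Q := by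
      intro σ h1
      apply hab σ
      have h2 : α σ + β σ = (α σ + Z * β σ) - (Z - 1) * β σ := by ring
      rw [h2]
      exact Ideal.sub_mem _ h1 (Ideal.mul_mem_right _ _ hz)
    rw [hxN] at hmem
    obtain ⟨σ, -, hσ⟩ := hQ.prod_mem_iff.1 hmem
    rcases hQ.mem_or_mem hσ with h1 | h1
    · exact hab' σ h1
    · exact hab σ (hQ.mem_of_pow_mem _ h1)
  have haway : ∀ Q : Ideal (𝓞 N), Q.IsPrime → Q ≠ ⊥ → (p : 𝓞 N) ∉ Q →
      p ∣ ordI Q (Ideal.span {algebraMap (𝓞 M) (𝓞 N) x}) := by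
    intro Q hQ hQ0 hpQ
    rw [hxN, ← Ideal.prod_span_singleton, ordI_prod]
    · refine Finset.dvd_sum fun σ _ => ?_
      exact ord_one p hp hZp (hfer σ) (hγ0 σ) Q hQ hQ0 hpQ
    · intro σ _ h1
      exact hfac1 σ (Ideal.span_singleton_eq_bot.1 h1)
  have hxN0 : algebraMap (𝓞 M) (𝓞 N) x ≠ 0 := by
    rw [hxN]
    exact Finset.prod_ne_zero_iff.2 fun σ _ => hfac1 σ
  have hall : ∀ Q : Ideal (𝓞 N), Q.IsPrime → Q ≠ ⊥ →
      p ∣ ordI Q (Ideal.span {algebraMap (𝓞 M) (𝓞 N) x}) := by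
    intro Q hQ hQ0
    by_cases hpQ : (p : 𝓞 N) ∈ Q
    · rw [(ordI_span_eq_zero_iff Q hQ hQ0 _ hxN0).2 (habove Q hQ hpQ)]
      exact dvd_zero _
    · exact haway Q hQ hQ0 hpQ
  refine ⟨?_, ?_⟩
  · intro P hP hpP hmem
    -- a prime of `N` above `P`
    obtain ⟨Q, hQ, hQl⟩ := P.nonempty_primesOver (S := 𝓞 N)
    have h1 : Q.comap (algebraMap (𝓞 M) (𝓞 N)) = P := hQl.over.symm
    refine habove Q hQ ?_ ?_
    · have h2 : (p : 𝓞 M) ∈ Q.comap (algebraMap (𝓞 M) (𝓞 N)) := by rw [h1]; exact hpP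
      rw [Ideal.mem_comap, map_natCast] at h2
      exact h2
    · have h2 : x ∈ Q.comap (algebraMap (𝓞 M) (𝓞 N)) := by rw [h1]; exact hmem
      exact h2
  · obtain ⟨J, hJ⟩ := exists_pow_of_dvd_ordI p hpp.ne_zero _
      (fun h1 => hxN0 (Ideal.span_singleton_eq_bot.1 h1)) hall
    have hmap : (Ideal.span {x}).map (algebraMap (𝓞 M) (𝓞 N)) =
        Ideal.span {algebraMap (𝓞 M) (𝓞 N) x} := by
      rw [Ideal.map_span, Set.image_singleton]
    exact descend M N p hN (Ideal.span {x}) J (by rw [hJ, hmap])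

end H9AB
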